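import Pool.Agent.Y707.SF.Sum

/-! **The averages of the traces on `H²`.** -/

set_option autoImplicit false
set_option maxHeartbeats 400000

namespace Pool.Agent.Y707.SF

open Polynomial Finset NumberField
open Pool.Agent.Y707.PC

section
variable {K : Type} [Field K] [NumberField K] {k l r g n : ℕ}
  {G : Fin l → MvPolynomial (Fin k) (𝓞 K)} {a : (MvPolynomial (Fin k) (𝓞 K))[X][X]}
  {α : Fin r → (MvPolynomial (Fin k) (𝓞 K))[X]}

theorem eval_a1 (j : Fin r) : (a1 a).eval (α1 α j) = sg (𝓞 K) k (a.eval (α j)) := by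
  unfold a1 α1
  exact eval_map_apply
    (sg (𝓞 K) k : (MvPolynomial (Fin k) (𝓞 K))[X] →+* MvPolynomial (Fin (k + 1)) (𝓞 K)) (α j)

theorem eval_a1_ne (h : ∀ j, a.eval (α j) ≠ 0) (j : Fin r) : (a1 a).eval (α1 α j) ≠ 0 := by
  rw [eval_a1]
  exact fun h0 => h j ((sg (𝓞 K) k).injective (by rw [h0, map_zero]))

theorem Q1_ne (h : IsSurfacePencil g n G a α) : Q1 g a α ≠ 0 := by
  have h1 : P1 g a α ≠ 0 := dsc_gen (a1_deg h.monic h.degree).1 (a1_deg h.monic h.degree).2
    h.number (eval_a1_ne h.nonzero)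
  unfold Q1
  intro h0
  apply leadingCoeff_ne_zero.2 h1
  exact (sg (𝓞 K) k).symm.injective (by rw [h0, map_zero])

theorem map_ne {κ : Type} [Field κ] {P : (MvPolynomial (Fin k) (𝓞 K))[X]} {φ : 𝓞 K →+* κ}
    {x : Fin k → κ} (h : MvPolynomial.eval₂Hom φ x P.leadingCoeff ≠ 0) :
    P.map (MvPolynomial.eval₂Hom φ x) ≠ 0 := by
  intro h0
  apply h
  have := congrArg (fun q => coeff q P.natDegree) h0
  simpa only [coeff_map, coeff_natDegree, coeff_zero] using this

theorem arith {q s qk S T X B0 c1 c2 Dg : ℝ} (hq : 0 < q) (hs : 1 ≤ s) (hsq : s ^ 2 = q)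
    (hqk : 0 < qk) (h1 : |S - T - 2 * q ^ 2 * X| ≤ (c1 * (q * s) + c2 * (q * s) * Dg) * qk)
    (h2 : |X - qk| * s ≤ B0 * qk) :
    |(qk * q)⁻¹ * S - q * (2 + (qk * q * q)⁻¹ * T)| ≤ (c1 + c2 * Dg + 2 * B0) * s := by
  have e : (qk * q)⁻¹ * S - q * (2 + (qk * q * q)⁻¹ * T) =
      (qk * q)⁻¹ * ((S - T - 2 * q ^ 2 * X) + 2 * q ^ 2 * (X - qk)) := by
    field_simp
    ring
  have hpos : 0 < qk * q := by positivity
  rw [e, _root_.abs_mul, abs_of_pos (inv_pos.2 hpos), inv_mul_le_iff₀ hpos]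
  refine (abs_add_le _ _).trans ((add_le_add h1 (?_ : _ ≤ 2 * q * (B0 * qk * s))).trans
    (le_of_eq ?_))
  · rw [_root_.abs_mul, abs_of_pos (by positivity : (0 : ℝ) < 2 * q ^ 2)]
    have h3 := mul_le_mul_of_nonneg_right h2 (by linarith : (0 : ℝ) ≤ s)
    have h4 : |X - qk| * s * s = |X - qk| * q := by rw [← hsq]; ring
    rw [h4] at h3
    have h5 := mul_le_mul_of_nonneg_left h3 (by positivity : (0 : ℝ) ≤ 2 * q)
    calc 2 * q ^ 2 * |X - qk| = 2 * q * (|X - qk| * q) := by ring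
      _ ≤ _ := h5
  · ring

/-- **The averages.** -/
theorem average_asy (h : IsSurfacePencil g n G a α) : ∃ (B : ℝ) (c : 𝓞 K), 0 ≤ B ∧ c ≠ 0 ∧
    ∀ (κ : Type) [Field κ] [Fintype κ] (φ : 𝓞 K →+* κ), φ c ≠ 0 →
      |averageTwo g n G a α φ - Fintype.card κ * (2 + ((Fintype.card κ : ℝ) ^ (k + 1 + 1))⁻¹ *
        TT g (G1 G) (a1 a) (α1 α) φ)| ≤ B * Real.sqrt (Fintype.card κ) := by
  classical
  obtain ⟨D, hD0, hD1, hD2⟩ := h.smooth
  set N : MvPolynomial (Fin k) (𝓞 K) := (∏ i, G i) * (D.leadingCoeff * (Q1 g a α).leadingCoeff)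
    with hN
  have hG : ∀ i, G i ≠ 0 := ne_of_ind h.independent
  have hN0 : N ≠ 0 := mul_ne_zero (prod_ne_zero_iff.2 fun i _ => hG i)
    (mul_ne_zero (leadingCoeff_ne_zero.2 hD0) (leadingCoeff_ne_zero.2 (Q1_ne h)))
  obtain ⟨Dg, c, hDg, hc, hfam⟩ := fam_sum hN0
  obtain ⟨B0, c0, hB0, hc0, hnx⟩ := sum_nx h.independent
  set c1 : ℝ := 2 ^ l * (((P1 g a α).natDegree * (2 * g) + (Q1 g a α).natDegree *
        (2 * r + (P1 g a α).natDegree * (2 * g))) + 2 * g + D.natDegree * (4 * g + 2)) with hc1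
  set c2 : ℝ := 2 ^ l * ((4 * g + 2) + (r + (P1 g a α).natDegree * (2 * g)) + 2) with hc2
  have hc10 : 0 ≤ c1 := by positivity
  have hc20 : 0 ≤ c2 := by positivity
  refine ⟨c1 + c2 * Dg + 2 * B0, 2 * (c * c0), by positivity,
    mul_ne_zero two_ne_zero (mul_ne_zero hc hc0), ?_⟩
  intro κ _ _ φ hφ
  rw [map_mul, map_mul, map_ofNat] at hφ
  have h20 : (2 : κ) ≠ 0 := left_ne_zero_of_mul hφ
  have h2 : ringChar κ ≠ 2 := ringChar_of_two h20
  obtain ⟨hr1, hr2, hr3⟩ := sqrt_facts κ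
  have hq : (0 : ℝ) < Fintype.card κ := by exact_mod_cast Fintype.card_pos (α := κ)
  set s := Real.sqrt (Fintype.card κ) with hs
  set q : ℝ := (Fintype.card κ : ℝ) with hqd
  set T : (Fin k → κ) → ℝ := fun x =>
    (if ∀ i, MvPolynomial.eval₂Hom φ x (G i) ≠ 0 then nx G φ x * sm g n a α φ x else 0) -
    (if ∀ i, MvPolynomial.eval₂Hom φ x (G i) ≠ 0 then nx G φ x * ∑ t : κ, sx g a α φ x t else 0) -
    2 * q ^ 2 * nx G φ x with hT
  have hnn : ∀ x, 0 ≤ nx G φ x := fun x => (nx_bd φ x).1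
  have h1 := hfam κ φ (left_ne_zero_of_mul (right_ne_zero_of_mul hφ)) T (c1 * (q * s))
    (c2 * (q * s)) (by positivity) (by positivity) (by
      intro x hx
      rw [hN, map_mul, map_mul, map_prod] at hx
      have hG' : ∀ i, MvPolynomial.eval₂Hom φ x (G i) ≠ 0 := fun i =>
        prod_ne_zero_iff.1 (left_ne_zero_of_mul hx) i (mem_univ i)
      have h5 := local_small h h2 φ hD1 hD2 x
        (map_ne (left_ne_zero_of_mul (right_ne_zero_of_mul hx)))
        (map_ne (right_ne_zero_of_mul (right_ne_zero_of_mul hx)))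
      have e : T x = nx G φ x * (sm g n a α φ x - ∑ t : κ, sx g a α φ x t - 2 * q ^ 2) := by
        simp only [hT]
        rw [if_pos hG', if_pos hG']
        ring
      rw [e, _root_.abs_mul, abs_of_nonneg (hnn x), hc1, mul_assoc]
      exact mul_le_mul (nx_bd φ x).2 h5 (abs_nonneg _) (by positivity)) (by
      intro x
      have h5 := local_large h h2 φ x
      have h6 : |T x| ≤ nx G φ x * (|sm g n a α φ x| + |∑ t : κ, sx g a α φ x t| + 2 * q ^ 2) := by
        simp only [hT]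
        have h7 : |2 * q ^ 2 * nx G φ x| = nx G φ x * (2 * q ^ 2) := by
          rw [abs_of_nonneg (mul_nonneg (by positivity) (hnn x)), mul_comm]
        by_cases hG' : ∀ i, MvPolynomial.eval₂Hom φ x (G i) ≠ 0
        · rw [if_pos hG', if_pos hG']
          refine (abs_sub _ _).trans ?_
          rw [h7]
          refine (add_le_add (abs_sub _ _) le_rfl).trans ?_
          rw [_root_.abs_mul, _root_.abs_mul, abs_of_nonneg (hnn x)]
          refine le_of_eq ?_
          ring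
        · rw [if_neg hG', if_neg hG', sub_zero, zero_sub, abs_neg, h7]
          refine mul_le_mul_of_nonneg_left ?_ (hnn x)
          have := abs_nonneg (sm g n a α φ x)
          have := abs_nonneg (∑ t : κ, sx g a α φ x t)
          linarith
      refine h6.trans ?_
      rw [hc2]
      have h8 := mul_le_mul (nx_bd (G := G) φ x).2 h5 (by positivity) (by positivity)
      refine h8.trans (le_of_eq ?_)
      ring)
  have h3 : ∑ x, T x = ∑ᶠ P ∈ goodPoints g n G a α φ, traceTwo g n (member a α φ P.1 P.2.2) -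
      TT g (G1 G) (a1 a) (α1 α) φ - 2 * q ^ 2 * ∑ x : Fin k → κ, nx G φ x := by
    rw [TT_slices h2 φ, sum_good φ h2 fun x w => traceTwo g n (member a α φ x w), mul_sum,
      ← sum_sub_distrib, ← sum_sub_distrib]
    rfl
  rw [h3] at h1
  have h4 := hnx κ φ (right_ne_zero_of_mul (right_ne_zero_of_mul hφ))
  unfold averageTwo
  rw [Nat.card_eq_fintype_card, pow_succ _ (k + 1), pow_succ _ k]
  exact arith hq hr1 hr2 (by positivity) h1 h4

end

end Pool.Agent.Y707.SF
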