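import Pool.Agent.Y707.SF.Asy

/-! The sums of the traces over the base. -/

set_option autoImplicit false
set_option maxHeartbeats 400000

namespace Pool.Agent.Y707.SF

open Polynomial Finset NumberField
open Pool.Agent.Y707.PC

section
variable {K : Type} [Field K] [NumberField K] {k l r g n : ℕ}
  {G : Fin l → MvPolynomial (Fin k) (𝓞 K)} {a : (MvPolynomial (Fin k) (𝓞 K))[X][X]}
  {α : Fin r → (MvPolynomial (Fin k) (𝓞 K))[X]} {κ : Type} [Field κ] [Fintype κ]

open Classical in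
variable (g n a α) in
/-- the sum over the smooth members -/
noncomputable def sm (φ : 𝓞 K →+* κ) (x : Fin k → κ) : ℝ :=
  ∑ w : κ, if IsSmoothSurface g n (member a α φ x w) then
    traceTwo g n (member a α φ x w) else 0

theorem local_small (h : IsSurfacePencil g n G a α) (h2 : ringChar κ ≠ 2) (φ : 𝓞 K →+* κ)
    {D : (MvPolynomial (Fin k) (𝓞 K))[X]}
    (hD1 : C (C D) ∈ Ideal.span {family a α, derivative (family a α), dt (family a α)})
    (hD2 : C D ∈ Ideal.span {atInfinity g n (family a α), derivative (atInfinity g n (family a α))})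
    (x : Fin k → κ) (hD : D.map (MvPolynomial.eval₂Hom φ x) ≠ 0)
    (hQ : (Q1 g a α).map (MvPolynomial.eval₂Hom φ x) ≠ 0) :
    |sm g n a α φ x - ∑ t : κ, sx g a α φ x t - 2 * (Fintype.card κ : ℝ) ^ 2| ≤
      (((P1 g a α).natDegree * (2 * g) + (Q1 g a α).natDegree *
        (2 * r + (P1 g a α).natDegree * (2 * g))) + 2 * g + D.natDegree * (4 * g + 2)) *
        (Fintype.card κ * Real.sqrt (Fintype.card κ)) := by
  classical
  have b1 := sum_slices h h2 φ x hQ
  have b3 := sum_bad h h2 φ hD1 hD2 x hD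
  have b2 : |∑ w : κ, mi g n a α φ x w| ≤
      Fintype.card κ * (2 * g * Real.sqrt (Fintype.card κ)) := by
    refine (abs_sum_le_sum_abs _ _).trans ((sum_le_sum fun w _ => mi_abs h h2 φ x w).trans ?_)
    rw [sum_const, card_univ, nsmul_eq_mul]
  have e1 : sm g n a α φ x = ∑ w : κ, traceTwo g n (member a α φ x w) -
      ∑ w : κ, (if IsSmoothSurface g n (member a α φ x w) then 0 else
      traceTwo g n (member a α φ x w)) := by
    unfold sm
    rw [← sum_sub_distrib]
    refine sum_congr rfl fun w _ => ?_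
    split_ifs
    · rw [sub_zero]
    · rw [sub_self]
  have e2 : ∑ w : κ, traceTwo g n (member a α φ x w) =
      ∑ t : κ, ∑ w : κ, ms a α φ x t w + ∑ w : κ, mi g n a α φ x w +
        2 * (Fintype.card κ : ℝ) ^ 2 := by
    simp only [tr_eq h2]
    rw [sum_add_distrib, sum_add_distrib, sum_const, card_univ, nsmul_eq_mul, sum_comm]
    ring
  have e3 : sm g n a α φ x - ∑ t : κ, sx g a α φ x t - 2 * (Fintype.card κ : ℝ) ^ 2 =
      ∑ t : κ, (∑ w : κ, ms a α φ x t w - sx g a α φ x t) + ∑ w : κ, mi g n a α φ x w -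
      ∑ w : κ, (if IsSmoothSurface g n (member a α φ x w) then 0 else
      traceTwo g n (member a α φ x w)) := by
    rw [e1, e2, sum_sub_distrib]
    ring
  rw [e3]
  refine ((abs_sub _ _).trans (add_le_add ((abs_add_le _ _).trans (add_le_add b1 b2)) b3)).trans ?_
  refine le_of_eq ?_
  ring

theorem local_large (h : IsSurfacePencil g n G a α) (h2 : ringChar κ ≠ 2) (φ : 𝓞 K →+* κ)
    (x : Fin k → κ) :
    |sm g n a α φ x| + |∑ t : κ, sx g a α φ x t| + 2 * (Fintype.card κ : ℝ) ^ 2 ≤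
      ((4 * g + 2) + (r + (P1 g a α).natDegree * (2 * g)) + 2) *
        (Fintype.card κ * Real.sqrt (Fintype.card κ)) * Fintype.card κ := by
  classical
  obtain ⟨hr1, hr2, hr3⟩ := sqrt_facts κ
  have h1 : |sm g n a α φ x| ≤ Fintype.card κ *
      ((4 * g + 2) * (Fintype.card κ * Real.sqrt (Fintype.card κ))) := by
    unfold sm
    have h5 : ∀ w : κ, |if IsSmoothSurface g n (member a α φ x w) then
        traceTwo g n (member a α φ x w) else 0| ≤
        (4 * g + 2) * (Fintype.card κ * Real.sqrt (Fintype.card κ)) := by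
      intro w
      split_ifs
      · exact tr_abs h h2 φ x w
      · rw [abs_zero]
        positivity
    refine (abs_sum_le_sum_abs _ _).trans ((sum_le_sum fun w _ => h5 w).trans ?_)
    rw [sum_const, card_univ, nsmul_eq_mul]
  have h3 : |∑ t : κ, sx g a α φ x t| ≤ Fintype.card κ *
      ((r + (P1 g a α).natDegree * (2 * g)) * Fintype.card κ) := by
    refine (abs_sum_le_sum_abs _ _).trans ((sum_le_sum fun t _ => sx_abs h h2 φ x t).trans ?_)
    rw [sum_const, card_univ, nsmul_eq_mul]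
  set s := Real.sqrt (Fintype.card κ) with hs
  set q : ℝ := (Fintype.card κ : ℝ) with hq
  have h9 : q * q ≤ q * q * s := le_mul_of_one_le_right (by positivity) hr1
  have h10 := mul_le_mul_of_nonneg_left h9
    (by positivity : (0 : ℝ) ≤ (r + (P1 g a α).natDegree * (2 * g)) + 2)
  linarith

theorem nx_G1 (φ : 𝓞 K →+* κ) (x : Fin k → κ) (t : κ) :
    nx (G1 G) φ (Fin.cons t x : Fin (k + 1) → κ) = nx G φ x := by
  unfold nx
  refine prod_congr rfl fun i _ => ?_
  rw [G1, sg_eval, Polynomial.map_C, eval_C]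

open Classical in
/-- the sum for the slices -/
theorem TT_slices (h2 : ringChar κ ≠ 2) (φ : 𝓞 K →+* κ) :
    TT g (G1 G) (a1 a) (α1 α) φ = ∑ x : Fin k → κ,
      if ∀ i, MvPolynomial.eval₂Hom φ x (G i) ≠ 0 then
        nx G φ x * ∑ t : κ, sx g a α φ x t else 0 := by
  unfold TT
  rw [if_neg h2, ← (Fin.consEquiv fun _ : Fin (k + 1) => κ).sum_comp, Fintype.sum_prod_type,
    sum_comm]
  refine sum_congr rfl fun x _ => ?_
  have e : ∀ t : κ, (Fin.consEquiv fun _ : Fin (k + 1) => κ) (t, x) =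
      (Fin.cons t x : Fin (k + 1) → κ) := fun t => rfl
  simp only [e, nx_G1]
  have e2 : ∀ (t : κ) (i : Fin l), MvPolynomial.eval₂Hom φ (Fin.cons t x : Fin (k + 1) → κ)
      (G1 G i) = MvPolynomial.eval₂Hom φ x (G i) := by
    intro t i
    rw [G1, sg_eval, Polynomial.map_C, eval_C]
  simp only [e2]
  split_ifs
  · rw [mul_sum]
    rfl
  · rw [sum_const_zero]

/-- the number of the points of `V` -/
theorem sum_nx (hG : ∀ S : Finset (Fin l), S.Nonempty → ¬ IsConstSq (∏ i ∈ S, G i)) :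
    ∃ (B : ℝ) (c : 𝓞 K), 0 ≤ B ∧ c ≠ 0 ∧
    ∀ (κ : Type) [Field κ] [Fintype κ] (φ : 𝓞 K →+* κ), φ c ≠ 0 →
      |∑ x : Fin k → κ, nx G φ x - (Fintype.card κ : ℝ) ^ k| * Real.sqrt (Fintype.card κ) ≤
        B * (Fintype.card κ : ℝ) ^ k := by
  classical
  have h1 : ∀ S : Finset (Fin l), ∃ (B : ℝ) (c : 𝓞 K), 0 ≤ B ∧ c ≠ 0 ∧ (S.Nonempty →
      ∀ (κ : Type) [Field κ] [Fintype κ] (φ : 𝓞 K →+* κ), φ c ≠ 0 →
      |∑ x : Fin k → κ, ch (MvPolynomial.eval₂Hom φ x (∏ i ∈ S, G i))| *
        Real.sqrt (Fintype.card κ) ≤ B * (Fintype.card κ : ℝ) ^ k) := by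
    intro S
    by_cases hS : S.Nonempty
    · obtain ⟨B, c, hB, hc, h⟩ := csum k (∏ i ∈ S, G i) (hG S hS)
      exact ⟨B, c, hB, hc, fun _ => h⟩
    · exact ⟨0, 1, le_rfl, one_ne_zero, fun h => (hS h).elim⟩
  choose B c hB hc h2 using h1
  refine ⟨∑ S, B S, ∏ S, c S, sum_nonneg fun S _ => hB S, prod_ne_zero_iff.2 fun S _ => hc S, ?_⟩
  intro κ _ _ φ hφ
  rw [map_prod, prod_ne_zero_iff] at hφ
  have e : ∑ x : Fin k → κ, nx G φ x - (Fintype.card κ : ℝ) ^ k =
      ∑ S ∈ (univ : Finset (Finset (Fin l))).erase ∅,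
        ∑ x : Fin k → κ, ch (MvPolynomial.eval₂Hom φ x (∏ i ∈ S, G i)) := by
    simp only [nx_expand]
    rw [sum_comm, ← add_sum_erase _ _ (mem_univ ∅), prod_empty]
    have h5 : ∑ x : Fin k → κ, ch (MvPolynomial.eval₂Hom φ x (1 : MvPolynomial (Fin k) (𝓞 K))) =
        (Fintype.card κ : ℝ) ^ k := by
      simp only [map_one]
      have h6 : ch (1 : κ) = 1 := by
        unfold ch
        rw [map_one, Int.cast_one]
      rw [h6, sum_const, card_univ, Fintype.card_fun, Fintype.card_fin, nsmul_eq_mul, mul_one]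
      push_cast
      rfl
    rw [h5, add_sub_cancel_left]
  rw [e]
  refine (mul_le_mul_of_nonneg_right (abs_sum_le_sum_abs _ _) (Real.sqrt_nonneg _)).trans ?_
  rw [sum_mul, sum_mul]
  refine (sum_le_sum fun S hS => h2 S (nonempty_iff_ne_empty.2 (ne_of_mem_erase hS)) κ φ
    (hφ S (mem_univ S))).trans ?_
  refine sum_le_sum_of_subset_of_nonneg (erase_subset _ _) fun S _ _ => ?_
  exact mul_nonneg (hB S) (by positivity)

end

end Pool.Agent.Y707.SF
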