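import Pool.Agent.Y707.PR.Pen

/-! Dirichlet series over the primes, shifted. -/

set_option autoImplicit false
set_option maxHeartbeats 400000

namespace Pool.Agent.Y707.SF

open NumberField IsDedekindDomain Filter Topology
open Pool.Agent.H921R2.TatePole (nm two_le_nm nm_summable)
open Pool.Agent.Y707.PR Pool.Agent.Y707.RX

section
variable {F : Type} [Field F] [NumberField F]

theorem nm_ne (v : HeightOneSpectrum (𝓞 F)) : ((nm v : ℕ) : ℂ) ≠ 0 := by
  have h := two_le_nm v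
  have : nm v ≠ 0 := by omega
  exact_mod_cast this

theorem shift_term (c : ℂ) (v : HeightOneSpectrum (𝓞 F)) (δ s : ℂ) :
    (c * ((nm v : ℕ) : ℂ) ^ (-δ)) * (Real.log (nm v) : ℂ) * ((nm v : ℕ) : ℂ) ^ (-(s - δ)) =
      c * (Real.log (nm v) : ℂ) * ((nm v : ℕ) : ℂ) ^ (-s) := by
  have h : ((nm v : ℕ) : ℂ) ^ (-s) = ((nm v : ℕ) : ℂ) ^ (-δ) * ((nm v : ℕ) : ℂ) ^ (-(s - δ)) := by
    rw [← Complex.cpow_add _ _ (nm_ne v)]
    congr 1
    ring
  rw [h]
  ring

theorem shift_norm {c : HeightOneSpectrum (𝓞 F) → ℂ} {B δ : ℝ}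
    (hc : ∀ v, ‖c v‖ ≤ B * (nm v : ℝ) ^ δ) (v : HeightOneSpectrum (𝓞 F)) :
    ‖c v * ((nm v : ℕ) : ℂ) ^ (-(δ : ℂ))‖ ≤ B := by
  have hn : (0 : ℝ) < nm v := by
    have h := two_le_nm v
    have : 0 < nm v := by omega
    exact_mod_cast this
  rw [norm_term, Complex.ofReal_re]
  refine (mul_le_mul_of_nonneg_right (hc v) (by positivity)).trans (le_of_eq ?_)
  rw [mul_assoc, ← Real.rpow_add hn, add_neg_cancel, Real.rpow_zero, mul_one]

theorem shift_summable {c : HeightOneSpectrum (𝓞 F) → ℂ} {B δ : ℝ}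
    (hc : ∀ v, ‖c v‖ ≤ B * (nm v : ℝ) ^ δ) {s : ℂ} (hs : 1 + δ < s.re) :
    Summable fun v => c v * (Real.log (nm v) : ℂ) * ((nm v : ℕ) : ℂ) ^ (-s) := by
  have h := summable_log (shift_norm hc) (w := s - δ) (by
    rw [Complex.sub_re, Complex.ofReal_re]
    linarith)
  simp only [shift_term] at h
  exact h

theorem shift_analytic {c : HeightOneSpectrum (𝓞 F) → ℂ} {B δ : ℝ}
    (hc : ∀ v, ‖c v‖ ≤ B * (nm v : ℝ) ^ δ) {s₀ : ℂ} (hs : 1 + δ < s₀.re) :
    AnalyticAt ℂ (fun s => ∑' v, c v * (Real.log (nm v) : ℂ) * ((nm v : ℕ) : ℂ) ^ (-s)) s₀ := by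
  set c' : HeightOneSpectrum (𝓞 F) → ℂ := fun v => c v * ((nm v : ℕ) : ℂ) ^ (-(δ : ℂ)) with hc'
  have hopen : IsOpen {w : ℂ | 1 < w.re} := isOpen_lt continuous_const Complex.continuous_re
  have hopen2 : IsOpen {w : ℂ | 1 + δ < w.re} := isOpen_lt continuous_const Complex.continuous_re
  have h1 : AnalyticAt ℂ (deriv (SD (co c'))) (s₀ - δ) := by
    refine AnalyticAt.deriv ?_
    refine (SD_diff (norm_co (shift_norm hc))).analyticAt (hopen.mem_nhds ?_)
    show 1 < (s₀ - δ).re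
    rw [Complex.sub_re, Complex.ofReal_re]
    linarith
  have h2 : AnalyticAt ℂ (fun s => deriv (SD (co c')) (s - δ)) s₀ :=
    AnalyticAt.comp' h1 (analyticAt_id.sub analyticAt_const)
  refine h2.congr ?_
  filter_upwards [hopen2.mem_nhds (show s₀ ∈ {w : ℂ | 1 + δ < w.re} from hs)] with s h3
  rw [deriv_SD (shift_norm hc) (by
    rw [Complex.sub_re, Complex.ofReal_re]
    have : 1 + δ < s.re := h3
    linarith)]
  exact tsum_congr fun v => shift_term _ _ _ _

open Classical in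
/-- **The residue at two.** -/
theorem residue_two {b z : HeightOneSpectrum (𝓞 F) → ℝ} {B B1 : ℝ} (hz : ∀ v, |z v| ≤ B1)
    (hb : ∀ v, |b v - nm v * (2 + z v)| ≤ B * Real.sqrt (nm v))
    (R : Finset (HeightOneSpectrum (𝓞 F))) {m : ℤ}
    (h : ∃ H : ℂ → ℂ, AnalyticAt ℂ H 1 ∧ ∀ᶠ w in 𝓝 (1 : ℂ), 1 < w.re →
      ∑' v : HeightOneSpectrum (𝓞 F), (if v ∈ R then 0 else (((2 : ℤ) + z v : ℝ) : ℂ)) *
        (Real.log (nm v) : ℂ) * ((nm v : ℕ) : ℂ) ^ (-w) = ((m : ℤ) : ℂ) / (w - 1) + H w) :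
    HasResidue R b 2 m := by
  classical
  have hnm : ∀ v : HeightOneSpectrum (𝓞 F), (1 : ℝ) ≤ nm v := by
    intro v
    have h := two_le_nm v
    have : 1 ≤ nm v := by omega
    exact_mod_cast this
  have hB1 : ∀ v : HeightOneSpectrum (𝓞 F), 0 ≤ B1 := fun v => (abs_nonneg _).trans (hz v)
  have hB : ∀ v : HeightOneSpectrum (𝓞 F), 0 ≤ B := by
    intro v
    have h1 := (abs_nonneg _).trans (hb v)
    have h2 : 0 < Real.sqrt (nm v) := Real.sqrt_pos.2 (by linarith [hnm v])
    exact nonneg_of_mul_nonneg_left h1 h2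
  have hsq : ∀ v : HeightOneSpectrum (𝓞 F), Real.sqrt (nm v) ≤ nm v := by
    intro v
    exact Real.sqrt_le_left (by linarith [hnm v]) |>.2 (by nlinarith [hnm v])
  constructor
  · intro s hs
    have h1 := shift_summable (F := F) (c := fun v => ((b v : ℝ) : ℂ)) (B := B + (2 + B1)) (δ := 1)
      (s := s) (fun v => by
        rw [Complex.norm_real, Real.norm_eq_abs, Real.rpow_one]
        have e : b v = (b v - nm v * (2 + z v)) + nm v * (2 + z v) := by ring
        rw [e]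
        refine (abs_add_le _ _).trans ?_
        have h2 : |(nm v : ℝ) * (2 + z v)| ≤ nm v * (2 + B1) := by
          rw [_root_.abs_mul, Nat.abs_cast]
          refine mul_le_mul_of_nonneg_left ?_ (Nat.cast_nonneg _)
          refine (abs_add_le _ _).trans ?_
          rw [abs_two]
          linarith [hz v]
        have h3 := hb v
        have h4 := mul_le_mul_of_nonneg_left (hsq v) (hB v)
        linarith) (by linarith)
    exact h1.comp_injective Subtype.val_injective
  · obtain ⟨H, hH, hw⟩ := h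
    set c2 : HeightOneSpectrum (𝓞 F) → ℂ := fun v =>
      if v ∈ R then 0 else ((b v - nm v * (2 + z v) : ℝ) : ℂ) with hc2
    set c1 : HeightOneSpectrum (𝓞 F) → ℂ := fun v =>
      if v ∈ R then 0 else (((2 : ℤ) + z v : ℝ) : ℂ) with hc1
    have hc2b : ∀ v, ‖c2 v‖ ≤ B * (nm v : ℝ) ^ (1 / 2 : ℝ) := by
      intro v
      rw [← Real.sqrt_eq_rpow, hc2]
      simp only
      split_ifs
      · rw [norm_zero]
        exact mul_nonneg (hB v) (Real.sqrt_nonneg _)
      · rw [Complex.norm_real]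
        exact hb v
    have hc1b : ∀ v, ‖c1 v‖ ≤ 2 + B1 := by
      intro v
      rw [hc1]
      simp only
      split_ifs
      · rw [norm_zero]
        linarith [hB1 v]
      · rw [Complex.norm_real, Real.norm_eq_abs]
        refine (abs_add_le _ _).trans ?_
        push_cast
        rw [abs_two]
        linarith [hz v]
    have hA : AnalyticAt ℂ (fun s : ℂ => H (s - 1) +
        ∑' v, c2 v * (Real.log (nm v) : ℂ) * ((nm v : ℕ) : ℂ) ^ (-s)) 2 := by
      refine AnalyticAt.add ?_ (shift_analytic hc2b (by norm_num))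
      have h5 : AnalyticAt ℂ H ((2 : ℂ) - 1) := by
        have : (2 : ℂ) - 1 = 1 := by norm_num
        rw [this]
        exact hH
      exact AnalyticAt.comp' h5 (analyticAt_id.sub analyticAt_const)
    refine ⟨_, by rw [Complex.ofReal_ofNat]; exact hA, ?_⟩
    rw [Complex.ofReal_ofNat]
    have ht : Tendsto (fun s : ℂ => s - 1) (𝓝 2) (𝓝 1) := by
      have h6 : Tendsto (fun s : ℂ => s - 1) (𝓝 2) (𝓝 (2 - 1)) := tendsto_id.sub_const 1
      have : (2 : ℂ) - 1 = 1 := by norm_num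
      rwa [this] at h6
    filter_upwards [ht.eventually hw] with s h1 h2
    have h3 : 1 < (s - 1).re := by
      rw [Complex.sub_re, Complex.one_re]
      linarith
    have h4 := h1 h3
    rw [series_eq]
    have h7 : ∀ v : HeightOneSpectrum (𝓞 F), (if v ∈ R then 0 else ((b v : ℝ) : ℂ)) *
        (Real.log (nm v) : ℂ) * ((nm v : ℕ) : ℂ) ^ (-s) =
        c1 v * (Real.log (nm v) : ℂ) * ((nm v : ℕ) : ℂ) ^ (-(s - 1)) +
        c2 v * (Real.log (nm v) : ℂ) * ((nm v : ℕ) : ℂ) ^ (-s) := by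
      intro v
      have h8 : ((nm v : ℕ) : ℂ) ^ (-(s - 1)) = ((nm v : ℕ) : ℂ) * ((nm v : ℕ) : ℂ) ^ (-s) := by
        have : -(s - 1) = 1 + -s := by ring
        rw [this, Complex.cpow_add _ _ (nm_ne v), Complex.cpow_one]
      rw [h8, hc1, hc2]
      simp only
      split_ifs
      · ring
      · push_cast
        ring
    rw [tsum_congr h7, Summable.tsum_add (summable_log hc1b h3) (shift_summable hc2b (by
      norm_num
      linarith)), h4]
    push_cast
    ring

end

end Pool.Agent.Y707.SF
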