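import Pool.Agent.Y707.SF.Cond
import Pool.Agent.Y707.SF.Shift

/-! **Linear pencils of surfaces with a hyperelliptic fibration.** -/

set_option autoImplicit false
set_option maxHeartbeats 400000

namespace Pool.Agent.Y707.SF

open Polynomial NumberField IsDedekindDomain Filter
open Pool.Agent.Y707.PC
open Pool.Agent.Y707.PR (HasResidue)
open Pool.Agent.H921R2.TatePole (nm two_le_nm)

section
variable {K : Type} [Field K] [NumberField K] {k l r g n : ℕ}
  {G : Fin l → MvPolynomial (Fin k) (𝓞 K)} {a : (MvPolynomial (Fin k) (𝓞 K))[X][X]}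
  {α : Fin r → (MvPolynomial (Fin k) (𝓞 K))[X]}

/-- a bound for almost all primes gives one for all primes -/
theorem bound_all {F : Type} [Field F] [NumberField F] {e : HeightOneSpectrum (𝓞 F) → ℝ} {B : ℝ}
    (h : ∀ᶠ v in cofinite, |e v| ≤ B * Real.sqrt (nm v)) :
    ∃ B' : ℝ, ∀ v, |e v| ≤ B' * Real.sqrt (nm v) := by
  rw [Filter.eventually_cofinite] at h
  refine ⟨|B| + ∑ v ∈ h.toFinset, |e v|, fun v => ?_⟩
  have h0 : 0 ≤ ∑ v ∈ h.toFinset, |e v| := Finset.sum_nonneg fun v _ => abs_nonneg _
  have h1 : (1 : ℝ) ≤ Real.sqrt (nm v) := by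
    rw [Real.one_le_sqrt]
    have h := two_le_nm v
    have : 1 ≤ nm v := by omega
    exact_mod_cast this
  by_cases hv : |e v| ≤ B * Real.sqrt (nm v)
  · refine hv.trans (mul_le_mul_of_nonneg_right ?_ (by linarith))
    linarith [le_abs_self B]
  · have h2 : |e v| ≤ ∑ v ∈ h.toFinset, |e v| :=
      Finset.single_le_sum (f := fun v => |e v|) (fun v _ => abs_nonneg _)
        (h.mem_toFinset.2 hv)
    have h3 : |e v| ≤ |B| + ∑ v ∈ h.toFinset, |e v| := by linarith [abs_nonneg B]
    refine h3.trans (le_mul_of_one_le_right ?_ h1)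
    linarith [abs_nonneg B]

/-- **The residue.** -/
theorem surface_residue (h : IsSurfacePencil g n G a α)
    (E : IntermediateField K (AlgebraicClosure K)) [NumberField E]
    (R : Finset (HeightOneSpectrum (𝓞 E))) :
    HasResidue R (fun v => averageTwo g n G a α
      ((Ideal.Quotient.mk v.asIdeal).comp (algebraMap (𝓞 K) (𝓞 E)))) 2 (classes G a α E + 2) := by
  classical
  obtain ⟨B, c, hB, hc, hasy⟩ := average_asy h
  have hd := a1_deg (g := g) h.monic h.degree
  set z : HeightOneSpectrum (𝓞 E) → ℝ := fun v =>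
    ((Nat.card (𝓞 E ⧸ v.asIdeal) : ℝ) ^ (k + 1 + 1))⁻¹ *
      TT g (G1 G) (a1 a) (α1 α) ((Ideal.Quotient.mk v.asIdeal).comp (algebraMap (𝓞 K) (𝓞 E)))
    with hz
  have hzv : ∀ v, _ := fun v : HeightOneSpectrum (𝓞 E) =>
    Pool.Agent.Y707.PR.valueAt_TTF (G := G1 G) (α := α1 α) hd.1 hd.2 h.number v
  have hzb : ∀ v, |z v| ≤ CC l g (a1 a) (α1 α) := fun v =>
    Pool.Agent.Y707.PR.value_bound hd.1 hd.2 h.number (hzv v)
  have hae : ∀ᶠ v : HeightOneSpectrum (𝓞 E) in cofinite,
      |averageTwo g n G a α ((Ideal.Quotient.mk v.asIdeal).comp (algebraMap (𝓞 K) (𝓞 E))) -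
        nm v * (2 + z v)| ≤ B * Real.sqrt (nm v) := by
    have hc' : algebraMap (𝓞 K) (𝓞 E) c ≠ 0 := by
      intro h0
      exact hc ((map_eq_zero_iff _ (FaithfulSMul.algebraMap_injective (𝓞 K) (𝓞 E))).1 h0)
    filter_upwards [ae_notMem hc'] with v hv
    have h3 := hasy (𝓞 E ⧸ v.asIdeal) ((Ideal.Quotient.mk v.asIdeal).comp
      (algebraMap (𝓞 K) (𝓞 E))) (by
        rw [RingHom.comp_apply, Ne, Ideal.Quotient.eq_zero_iff_mem]
        exact hv)
    have e1 : Fintype.card (𝓞 E ⧸ v.asIdeal) = nm v := by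
      rw [← Nat.card_eq_fintype_card]
      rfl
    have e2 : Nat.card (𝓞 E ⧸ v.asIdeal) = nm v := rfl
    rw [e1] at h3
    simp only [hz]
    rw [e2]
    exact h3
  obtain ⟨B', hB'⟩ := bound_all hae
  have hres := Pool.Agent.Y707.PR.pencil_residue (indep1 h.independent) hd.1 hd.2 h.number
    (eval_a1_ne h.nonzero) (alpha1_inj h.distinct) E (b := z)
    (Filter.Eventually.of_forall hzv) hzb 2 R
  rw [count_eq] at hres
  have h5 := residue_two hzb hB' R (m := 2 + classes G a α E) hres
  have e3 : ((2 + classes G a α E : ℤ) : ℝ) = (classes G a α E : ℝ) + 2 := by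
    push_cast
    ring
  rw [e3] at h5
  exact h5

/-- **The generic surface.** -/
theorem surface_algebraic (h : IsSurfacePencil g n G a α)
    (E : IntermediateField K (AlgebraicClosure K)) {M : Type} [Field M] [Algebra E M]
    {ξ : Fin k → M} {η : Fin l → M} (hM : IsFunctionField G E ξ η) :
    IsSmoothSurface g n (genericSurface a α E ξ) ∧
      PicardRankAddTwo (genericSurface a α E ξ) (classes G a α E) := by
  obtain ⟨hξ, hη, htop⟩ := hM
  set ι : 𝓞 K →+* E := (algebraMap K E).comp (algebraMap (𝓞 K) K) with hι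
  have hιi : Function.Injective ι := (algebraMap K E).injective.comp
    (IsFractionRing.injective (𝓞 K) K)
  have hmi : Function.Injective (MvPolynomial.map (σ := Fin k) ι) :=
    MvPolynomial.map_injective _ hιi
  have hinj : Function.Injective (MvPolynomial.aeval ξ : MvPolynomial (Fin k) E →ₐ[E] M) := hξ
  have hv : ∀ p, valueAt E ξ p = MvPolynomial.aeval ξ (MvPolynomial.map ι p) := by
    intro p
    rw [valueAt_eq]
    rfl
  have hvinj : Function.Injective (valueAt E ξ) := by
    intro p q h
    rw [hv, hv] at h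
    exact hmi (hinj h)
  have hE0 : CharZero E := charZero_of_injective_algebraMap (algebraMap K E).injective
  have hM0 : CharZero M := charZero_of_injective_algebraMap (algebraMap E M).injective
  have hB0 : CharZero (RatFunc M) := charZero_of_injective_algebraMap (algebraMap M _).injective
  have hsm : IsSmoothSurface g n (genericSurface a α E ξ) := by
    obtain ⟨D, hD0, hD1, hD2⟩ := h.smooth
    refine smooth_member (B := RatFunc M) two_ne_zero h hD1 hD2
      ((algebraMap M (RatFunc M)).comp (valueAt E ξ)) RatFunc.X ?_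
    rw [← Polynomial.map_map, eval_map_algebraMap, aeval_RX, Ne,
      map_eq_zero_iff _ (IsFractionRing.injective M[X] (RatFunc M)),
      Polynomial.map_eq_zero_iff hvinj]
    exact hD0
  refine ⟨hsm, ?_⟩
  have hsurf : surf (a.map (mapRingHom (valueAt E ξ))) (fun j => (α j).map (valueAt E ξ)) =
      genericSurface a α E ξ := by
    unfold surf genericSurface pen
    rw [Polynomial.map_map, mapRingHom_comp]
    simp only [coe_mapRingHom, Polynomial.map_map]
  have hev : ∀ j, (a.map (mapRingHom (valueAt E ξ))).eval ((α j).map (valueAt E ξ)) =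
      (a.eval (α j)).map (valueAt E ξ) := fun j => eval_map_apply (mapRingHom (valueAt E ξ)) (α j)
  have h1 := alg_ratfunc (g := g) (aM := a.map (mapRingHom (valueAt E ξ)))
    (αM := fun j => (α j).map (valueAt E ξ)) (h.monic.map _)
    (by rw [h.monic.natDegree_map, h.degree]) h.number
    (fun j h0 => h.nonzero j (by
      rw [hev, Polynomial.map_eq_zero_iff hvinj] at h0
      exact h0))
    (fun i j hij => h.distinct (Polynomial.map_injective _ hvinj hij))
    (by rw [hsurf]; exact hsm.finite)
  rw [hsurf] at h1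
  obtain ⟨hdom, h2, h3, h4⟩ := h1
  refine ⟨hdom, h2, h3, h4.trans ?_⟩
  unfold classes
  refine Nat.card_congr (Equiv.subtypeEquivRight fun j => ?_)
  rw [hev]
  have e1 : (a.eval (α j)).map (valueAt E ξ) =
      ((a.eval (α j)).map (MvPolynomial.map ι)).map
        (MvPolynomial.aeval ξ : MvPolynomial (Fin k) E →ₐ[E] M).toRingHom := by
    rw [Polynomial.map_map, valueAt_eq]
  rw [e1, kum1 hξ (g := fun i => MvPolynomial.map ι (G i))
    (fun i h0 => ne_of_ind h.independent i (hmi (by rw [h0, map_zero])))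
    (η := η) (fun i => by rw [hη i, hv]) htop]
  refine exists_congr fun S => ?_
  simp only [Polynomial.map_mul, Polynomial.map_C, map_prod, Polynomial.map_prod, ← hι]

end

end Pool.Agent.Y707.SF
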