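import Pool.Agent.Y707.SF.Pts
import Pool.Agent.Y707.PC.Alg

/-! **The class group of a linear pencil of surfaces.** -/

set_option autoImplicit false
set_option maxHeartbeats 400000

namespace Pool.Agent.Y707.SF

open Polynomial Pool.Agent.TH943.HJ Pool.Agent.Y707.PC
open scoped nonZeroDivisors

section
variable {B L' M' : Type} [Field B] [Field L'] [Field M'] [Algebra M' L'] [Algebra B[X] L']
  [IsFractionRing B[X] L'] {ι : Type} [Fintype ι] {a' : M'[X]} {α' : ι → M'} {ω : L'}
  {f : B[X][X]} {β : ι → B[X]}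

theorem sm_le [IsDomain (SR f)] : Sm f ≤ (SR f)⁰ := by
  rintro _ ⟨s, hs, rfl⟩
  apply mem_nonZeroDivisors_of_ne_zero
  intro h0
  have h1 : (pq (C s) : SR f) = 0 := h0
  have h2 := pq_inj (h1.trans (map_zero pq).symm)
  rw [C_eq_zero] at h2
  exact nonZeroDivisors.ne_zero hs h2

theorem sm_factors (hf : f.Monic) (hodd : Odd f.natDegree) (s : SR f) (hs : s ∈ Sm f) :
    ∃ g : Multiset (SR f), (∀ b ∈ g, Prime b) ∧ Associated g.prod s := by
  obtain ⟨t, ht, rfl⟩ := hs
  obtain ⟨g, hg, hgt⟩ := UniqueFactorizationMonoid.exists_prime_factors t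
    (nonZeroDivisors.ne_zero ht)
  refine ⟨g.map ((pq (f := f)).comp C), ?_, ?_⟩
  · intro b hb
    obtain ⟨p, hp, rfl⟩ := Multiset.mem_map.1 hb
    exact prime_SR hf hodd (hg p hp)
  · have h1 : (g.map ((pq (f := f)).comp C)).prod = ((pq (f := f)).comp C) g.prod :=
      (map_multiset_prod _ _).symm
    rw [h1]
    exact hgt.map ((pq (f := f)).comp C)

/-- **The class group of a pencil of surfaces** is the class group of its generic fibre. -/
theorem alg_surf (h2 : (2 : B) ≠ 0) (hω : Transcendental M' ω)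
    (hL : ∀ z : L', ∃ p q : M'[X], aeval ω q ≠ 0 ∧ z * aeval ω q = aeval ω p)
    (hα : Function.Injective α') (ha : Odd a'.natDegree) (hd : Fintype.card ι < a'.natDegree)
    (haα : ∀ j, a'.eval (α' j) ≠ 0) (hsq : Squarefree (ff a' (hh α') ω))
    (hf : f.Monic) (hodd : Odd f.natDegree)
    (hF : ff a' (hh α') ω = f.map (algebraMap B[X] L'))
    (hβ : ∀ j, algebraMap B[X] L' (β j) = algebraMap M' L' (α' j))
    (hs : (1 : B[X][X]) ∈ Ideal.span {f, derivative f, dt f}) :
    ∃ _ : IsDomain (SR f),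
    Module.Free ℤ (Additive (ClassGroup (SR f))) ∧
    Module.Finite ℤ (Additive (ClassGroup (SR f))) ∧
    Module.finrank ℤ (Additive (ClassGroup (SR f))) =
      Nat.card {j // IsSquare (algebraMap M' L' (a'.eval (α' j)))} := by
  classical
  have hdomA : IsDomain (SR f) := isDomain_SR hf hodd
  refine ⟨hdomA, ?_⟩
  have hd' : (hh α').natDegree < a'.natDegree := by rw [hh_natDegree]; exact hd
  have hodd2 := (odd_ff (L := L') (ω := ω) ha hd').1
  have hdomD : IsDomain (CR (ff a' (hh α') ω)) := isDomain hodd2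
  have h2' : (2 : L') ≠ 0 := by
    have h3 : (2 : L') = algebraMap B[X] L' (C 2) := by
      rw [map_ofNat, map_ofNat]
    rw [h3, Ne, map_eq_zero_iff _ (IsFractionRing.injective B[X] L'), C_eq_zero]
    exact h2
  obtain ⟨k1, k2, k3⟩ := alg_main h2' hω hL hα ha hd haα hsq
  have hded : IsDedekindDomain (CR (ff a' (hh α') ω)) := dedekind h2' hodd2 hsq
  letI ialg : Algebra (SR f) (CR (ff a' (hh α') ω)) := (red (algebraMap B[X] L') hF).toAlgebra
  have hloc : IsLocalization (Sm f) (CR (ff a' (hh α') ω)) := isLocalization_SR hF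
  have hal : ∀ z : SR f, algebraMap (SR f) (CR (ff a' (hh α') ω)) z =
      red (algebraMap B[X] L') hF z := fun z => rfl
  have hinjr : Function.Injective (algebraMap (SR f) (CR (ff a' (hh α') ω))) :=
    red_inj _ hF (IsFractionRing.injective B[X] L')
  have htf : Module.IsTorsionFree (SR f) (CR (ff a' (hh α') ω)) :=
    Module.isTorsionFree_iff_algebraMap_injective.mpr hinjr
  have hinj := extended_injective (B := CR (ff a' (hh α') ω)) (Sm f) (sm_factors hf hodd) sm_le
  -- surjectivity
  have hev : ∀ j, (ff a' (hh α') ω).eval (algebraMap M' L' (α' j)) =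
      algebraMap B[X] L' (f.eval (β j)) := by
    intro j
    rw [hF, ← hβ, eval_map_apply]
  have hrange : (ClassGroup.extendedHom (SR f) (CR (ff a' (hh α') ω))).range = ⊤ := by
    refine gen hω hL ha hd' (hh_ne α') _ fun 𝔭 h0 hp hmem => ?_
    rw [up_hh, map_prod] at hmem
    obtain ⟨j, -, hj⟩ := (hp.prod_mem_iff).1 hmem
    have key : ∀ c : L', (ff a' (hh α') ω).eval (algebraMap M' L' (α' j)) = c ^ 2 →
        𝔭 = pid (ff a' (hh α') ω) (X - C (algebraMap M' L' (α' j))) (C c) →
        ClassGroup.mk0 ⟨𝔭, h0⟩ ∈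
          (ClassGroup.extendedHom (SR f) (CR (ff a' (hh α') ω))).range := by
      intro c hc hpc
      rw [hev] at hc
      obtain ⟨c0, hc0⟩ := IsIntegrallyClosed.exists_algebraMap_eq_of_isIntegral_pow
        (R := B[X]) (K := L') (x := c) (n := 2) two_pos (by
          rw [← hc]
          exact isIntegral_algebraMap)
      have hc1 : f.eval (β j) = c0 ^ 2 := by
        apply IsFractionRing.injective B[X] L'
        rw [hc, map_pow, hc0]
      have hm : 𝔭 = (pi2 f (β j) c0).map (algebraMap (SR f) (CR (ff a' (hh α') ω))) := by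
        rw [hpc]
        unfold pi2
        rw [Ideal.map_span, Set.image_pair, hal, hal,
          map_sub (red (algebraMap B[X] L') hF) (yq f), red_pq, red_pq, red_yq,
          Polynomial.map_sub, map_X, Polynomial.map_C, Polynomial.map_C, hβ, hc0]
        rfl
      have hne : (pq (X - C (β j)) : SR f) ≠ 0 := by
        intro h1
        have h3 := pq_inj (h1.trans (map_zero pq).symm)
        exact X_sub_C_ne_zero _ h3
      have h4 := pi2_mul (v := (2 : B)⁻¹) (inv_mul_cancel₀ h2) hc1 hs
      have h5 : (pi2 f (β j) c0).map (algebraMap (SR f) (CR (ff a' (hh α') ω))) ∈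
          (Ideal (CR (ff a' (hh α') ω)))⁰ := by
        rw [← hm]
        exact h0
      have h6 := mem_range hne h4 h5
      have h7 : (⟨𝔭, h0⟩ : (Ideal (CR (ff a' (hh α') ω)))⁰) = ⟨_, h5⟩ := Subtype.ext hm
      rw [h7]
      exact h6
    by_cases hsqr : IsSquare ((ff a' (hh α') ω).eval (algebraMap M' L' (α' j)))
    · obtain ⟨c, hc⟩ := hsqr
      rw [← sq] at hc
      rcases prime_split hp hj hc with h | h
      · exact key c hc h
      · refine key (-c) ?_ ?_
        · rw [hc]
          ring
        · rw [h, C_neg]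
    · have h := prime_inert hp hj hsqr
      have h1 : ClassGroup.mk0 ⟨𝔭, h0⟩ = 1 := by
        rw [ClassGroup.mk0_eq_one_iff]
        exact ⟨⟨_, h⟩⟩
      rw [h1]
      exact one_mem _
  have hsurj : Function.Surjective
      (ClassGroup.extendedHom (SR f) (CR (ff a' (hh α') ω))) :=
    MonoidHom.range_eq_top.1 hrange
  let e := MulEquiv.ofBijective _ ⟨hinj, hsurj⟩
  let e' : Additive (ClassGroup (SR f)) ≃ₗ[ℤ]
      Additive (ClassGroup (CR (ff a' (hh α') ω))) := (MulEquiv.toAdditive e).toIntLinearEquiv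
  refine ⟨Module.Free.of_equiv e'.symm, Module.Finite.equiv e'.symm, ?_⟩
  rw [LinearEquiv.finrank_eq e', k3]

end

end Pool.Agent.Y707.SF
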