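import Pool.Agent.Y707.SF.Wt
import Pool.Agent.Y707.PC.Asy2

/-! The sums of the traces: local bounds. -/

set_option autoImplicit false
set_option maxHeartbeats 400000

namespace Pool.Agent.Y707.SF

open Polynomial Finset NumberField
open Pool.Agent.Y707.PC

section
variable {K : Type} [Field K] [NumberField K] {k l r g n : ℕ}
  {G : Fin l → MvPolynomial (Fin k) (𝓞 K)} {a : (MvPolynomial (Fin k) (𝓞 K))[X][X]}
  {α : Fin r → (MvPolynomial (Fin k) (𝓞 K))[X]} {κ : Type} [Field κ] [Fintype κ]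

open Classical in
theorem sum_good (φ : 𝓞 K →+* κ) (h2 : ringChar κ ≠ 2) (T : (Fin k → κ) → κ → ℝ) :
    ∑ᶠ P ∈ goodPoints g n G a α φ, T P.1 P.2.2 = ∑ x : Fin k → κ,
      if ∀ i, MvPolynomial.eval₂Hom φ x (G i) ≠ 0 then
      nx G φ x * ∑ w : κ, (if IsSmoothSurface g n (member a α φ x w) then T x w else 0)
      else 0 := by
  rw [finsum_mem_def, finsum_eq_sum_of_fintype]
  have h3 : (∑ P : (Fin k → κ) × (Fin l → κ) × κ, (goodPoints g n G a α φ).indicator
      (fun P => T P.1 P.2.2) P) = ∑ z : (Fin k → κ) × (Fin l → κ) × κ, if ((∀ i, z.2.1 i ^ 2 =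
        MvPolynomial.eval₂Hom φ z.1 (G i)) ∧ (∀ i, MvPolynomial.eval₂Hom φ z.1 (G i) ≠ 0) ∧
        IsSmoothSurface g n (member a α φ z.1 z.2.2)) then T z.1 z.2.2 else 0 := by
    refine sum_congr rfl fun z _ => ?_
    rw [Set.indicator_apply]
    refine if_congr ?_ rfl rfl
    unfold goodPoints
    rw [Set.mem_setOf_eq]
    constructor
    · rintro ⟨h, hs⟩
      exact ⟨fun i => (h i).1, fun i h0 => (h i).2 (eq_zero_of_pow_eq_zero ((h i).1.trans h0)), hs⟩
    · rintro ⟨h, hG, hs⟩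
      exact ⟨fun i => ⟨h i, fun h0 => hG i (by rw [← h i, h0, zero_pow two_ne_zero])⟩, hs⟩
  rw [h3, Fintype.sum_prod_type]
  refine sum_congr rfl fun x _ => ?_
  rw [Fintype.sum_prod_type]
  by_cases hG : ∀ i, MvPolynomial.eval₂Hom φ x (G i) ≠ 0
  · rw [if_pos hG, nx, ← card_sqrts h2, sum_mul]
    refine sum_congr rfl fun y _ => ?_
    rw [mul_sum]
    refine sum_congr rfl fun w _ => ?_
    by_cases h4 : ∀ i, y i ^ 2 = MvPolynomial.eval₂Hom φ x (G i)
    · rw [if_pos h4, one_mul]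
      by_cases h5 : IsSmoothSurface g n (member a α φ x w)
      · rw [if_pos h5, if_pos ⟨h4, hG, h5⟩]
      · rw [if_neg h5, if_neg fun h => h5 h.2.2]
    · rw [if_neg h4, zero_mul, if_neg fun h => h4 h.1]
  · rw [if_neg hG]
    refine sum_eq_zero fun y _ => sum_eq_zero fun w _ => ?_
    rw [if_neg fun h => hG h.2.1]

variable (a α) in
/-- the sum over a slice -/
noncomputable def ms (φ : 𝓞 K →+* κ) (x : Fin k → κ) (t w : κ) : ℝ :=
  msum (a1 a) (α1 α) (MvPolynomial.eval₂Hom φ (Fin.cons t x : Fin (k + 1) → κ)) w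

variable (g n a α) in
/-- the sum over the fibre at infinity -/
noncomputable def mi (φ : 𝓞 K →+* κ) (x : Fin k → κ) (w : κ) : ℝ :=
  ∑ z : κ, ch ((atInfinity g n (member a α φ x w)).eval z)

theorem tr_eq (h2 : ringChar κ ≠ 2) (φ : 𝓞 K →+* κ) (x : Fin k → κ) (w : κ) :
    traceTwo g n (member a α φ x w) = ∑ t : κ, ms a α φ x t w + mi g n a α φ x w +
      2 * Fintype.card κ := by
  rw [traceTwo_eq h2]
  simp only [slice_sum]
  rfl

theorem a1_deg (ha : a.Monic) (hd : a.natDegree = 2 * g + 1) :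
    (a1 a).Monic ∧ (a1 a).natDegree = 2 * g + 1 := by
  refine ⟨ha.map _, ?_⟩
  unfold a1
  rw [ha.natDegree_map, hd]

theorem ms_abs (h : IsSurfacePencil g n G a α) (h2 : ringChar κ ≠ 2) (φ : 𝓞 K →+* κ)
    (x : Fin k → κ) (t w : κ) : |ms a α φ x t w| ≤ 2 * g * Real.sqrt (Fintype.card κ) :=
  mem_bound h2 (a1_deg h.monic h.degree).1 (a1_deg h.monic h.degree).2 h.number w

theorem mi_abs (h : IsSurfacePencil g n G a α) (h2 : ringChar κ ≠ 2) (φ : 𝓞 K →+* κ)
    (x : Fin k → κ) (w : κ) : |mi g n a α φ x w| ≤ 2 * g * Real.sqrt (Fintype.card κ) := by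
  have h3 : (member a α φ x w).Monic ∧ (member a α φ x w).natDegree = 2 * g + 1 :=
    pen_deg h.monic h.degree h.number
  have h4 := atInfinity_monic (g := g) (n := n) h3.1 h3.2
  exact weil_odd h2 h4.1 h4.2

theorem tr_abs (h : IsSurfacePencil g n G a α) (h2 : ringChar κ ≠ 2) (φ : 𝓞 K →+* κ)
    (x : Fin k → κ) (w : κ) : |traceTwo g n (member a α φ x w)| ≤
      (4 * g + 2) * (Fintype.card κ * Real.sqrt (Fintype.card κ)) := by
  rw [tr_eq h2]
  obtain ⟨hr1, hr2, hr3⟩ := sqrt_facts κ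
  have h1 : |∑ t : κ, ms a α φ x t w| ≤
      Fintype.card κ * (2 * g * Real.sqrt (Fintype.card κ)) := by
    refine (abs_sum_le_sum_abs _ _).trans ((sum_le_sum fun t _ => ms_abs h h2 φ x t w).trans ?_)
    rw [sum_const, card_univ, nsmul_eq_mul]
  have h3 := mi_abs h h2 φ x w
  set s := Real.sqrt (Fintype.card κ) with hs
  set q : ℝ := (Fintype.card κ : ℝ) with hq
  have hg : (0 : ℝ) ≤ g := Nat.cast_nonneg g
  have h4 : |∑ t : κ, ms a α φ x t w + mi g n a α φ x w + 2 * q| ≤
      q * (2 * g * s) + 2 * g * s + 2 * q := by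
    refine (abs_add_le _ _).trans (add_le_add ((abs_add_le _ _).trans (add_le_add h1 h3)) ?_)
    rw [abs_of_nonneg (by positivity)]
  refine h4.trans ?_
  have h5 : s ≤ q * s := by nlinarith
  have h6 : q ≤ q * s := by nlinarith
  have h7 := mul_le_mul_of_nonneg_left h5 (by positivity : (0 : ℝ) ≤ 2 * g)
  nlinarith

variable (g a α) in
/-- the discriminant of the slices -/
noncomputable def P1 : (MvPolynomial (Fin (k + 1)) (𝓞 K))[X] :=
  dsc g (a1 a) (α1 α) (C : MvPolynomial (Fin (k + 1)) (𝓞 K) →+* _) X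

variable (g a α) in
/-- its leading coefficient -/
noncomputable def Q1 : (MvPolynomial (Fin k) (𝓞 K))[X] :=
  (sg (𝓞 K) k).symm (P1 g a α).leadingCoeff

variable (g a α) in
/-- the sum over the smooth members, for the slices -/
noncomputable def sx (φ : 𝓞 K →+* κ) (x : Fin k → κ) (t : κ) : ℝ :=
  Sx g (a1 a) (α1 α) (MvPolynomial.eval₂Hom φ (Fin.cons t x : Fin (k + 1) → κ))

theorem P1_map {φ : 𝓞 K →+* κ} {x : Fin k → κ} {t : κ}
    (ht : ((Q1 g a α).map (MvPolynomial.eval₂Hom φ x)).eval t ≠ 0) :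
    (P1 g a α).map (MvPolynomial.eval₂Hom φ (Fin.cons t x : Fin (k + 1) → κ)) ≠ 0 := by
  intro h0
  apply ht
  have := congrArg (fun q => coeff q (P1 g a α).natDegree) h0
  simp only [coeff_map, coeff_natDegree, coeff_zero] at this
  rw [← sg_eval, Q1, RingEquiv.apply_symm_apply]
  exact this

theorem sx_abs (h : IsSurfacePencil g n G a α) (h2 : ringChar κ ≠ 2) (φ : 𝓞 K →+* κ)
    (x : Fin k → κ) (t : κ) : |sx g a α φ x t| ≤
      (r + (P1 g a α).natDegree * (2 * g)) * Fintype.card κ :=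
  Sx_bound h2 (a1_deg h.monic h.degree).1 (a1_deg h.monic h.degree).2 h.number

theorem dt_small (h : IsSurfacePencil g n G a α) (h2 : ringChar κ ≠ 2) (φ : 𝓞 K →+* κ)
    (x : Fin k → κ) (t : κ) (ht : ((Q1 g a α).map (MvPolynomial.eval₂Hom φ x)).eval t ≠ 0) :
    |∑ w : κ, ms a α φ x t w - sx g a α φ x t| ≤
      (P1 g a α).natDegree * (2 * g * Real.sqrt (Fintype.card κ)) := by
  unfold ms sx
  rw [PC.sum_mem h2, abs_sub_comm]
  exact Sx_main h2 (a1_deg h.monic h.degree).1 (a1_deg h.monic h.degree).2 h.number (P1_map ht)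

theorem dt_large (h : IsSurfacePencil g n G a α) (h2 : ringChar κ ≠ 2) (φ : 𝓞 K →+* κ)
    (x : Fin k → κ) (t : κ) :
    |∑ w : κ, ms a α φ x t w - sx g a α φ x t| ≤
      (2 * r + (P1 g a α).natDegree * (2 * g)) * Fintype.card κ := by
  have h1 := sx_abs h h2 φ x t
  have h3 : |∑ w : κ, ms a α φ x t w| ≤ Fintype.card κ * r := by
    unfold ms
    rw [PC.sum_mem h2, _root_.abs_mul, Nat.abs_cast]
    exact mul_le_mul_of_nonneg_left bas_abs (Nat.cast_nonneg _)
  refine (abs_sub _ _).trans ?_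
  linarith

open Classical in
/-- the sum over the slices -/
theorem sum_slices (h : IsSurfacePencil g n G a α) (h2 : ringChar κ ≠ 2) (φ : 𝓞 K →+* κ)
    (x : Fin k → κ) (hQ : (Q1 g a α).map (MvPolynomial.eval₂Hom φ x) ≠ 0) :
    |∑ t : κ, (∑ w : κ, ms a α φ x t w - sx g a α φ x t)| ≤
      ((P1 g a α).natDegree * (2 * g) + (Q1 g a α).natDegree *
        (2 * r + (P1 g a α).natDegree * (2 * g))) *
        (Fintype.card κ * Real.sqrt (Fintype.card κ)) := by
  obtain ⟨hr1, hr2, hr3⟩ := sqrt_facts κ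
  have h5 : ∀ t : κ, |∑ w : κ, ms a α φ x t w - sx g a α φ x t| ≤
      (P1 g a α).natDegree * (2 * g * Real.sqrt (Fintype.card κ)) +
      if ((Q1 g a α).map (MvPolynomial.eval₂Hom φ x)).eval t = 0 then
        (2 * r + (P1 g a α).natDegree * (2 * g)) * (Fintype.card κ : ℝ) else 0 := by
    intro t
    split_ifs with h0
    · exact (dt_large h h2 φ x t).trans (le_add_of_nonneg_left (by positivity))
    · exact (dt_small h h2 φ x t h0).trans (le_add_of_nonneg_right le_rfl)
  refine (abs_sum_le_sum_abs _ _).trans ((sum_le_sum fun t _ => h5 t).trans ?_)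
  rw [sum_add_distrib, sum_const, card_univ, nsmul_eq_mul, ← sum_filter, sum_const, nsmul_eq_mul]
  have h6 : ((univ.filter fun t => ((Q1 g a α).map (MvPolynomial.eval₂Hom φ x)).eval t = 0).card :
      ℝ) ≤ (Q1 g a α).natDegree := by
    refine (card_zeros hQ).trans ?_
    exact_mod_cast natDegree_map_le
  set s := Real.sqrt (Fintype.card κ) with hs
  set q : ℝ := (Fintype.card κ : ℝ) with hq
  have h7 : (0 : ℝ) ≤ (2 * r + (P1 g a α).natDegree * (2 * g)) := by positivity
  have h8 := mul_le_mul_of_nonneg_right h6 (mul_nonneg h7 (by linarith : (0 : ℝ) ≤ q))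
  have h9 : q ≤ q * s := by nlinarith
  have h10 := mul_le_mul_of_nonneg_left h9
    (mul_nonneg (Nat.cast_nonneg (Q1 g a α).natDegree) h7)
  nlinarith

open Classical in
/-- the members which are not smooth -/
theorem sum_bad (h : IsSurfacePencil g n G a α) (h2 : ringChar κ ≠ 2) (φ : 𝓞 K →+* κ)
    {D : (MvPolynomial (Fin k) (𝓞 K))[X]}
    (hD1 : C (C D) ∈ Ideal.span {family a α, derivative (family a α), dt (family a α)})
    (hD2 : C D ∈ Ideal.span {atInfinity g n (family a α), derivative (atInfinity g n (family a α))})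
    (x : Fin k → κ) (hD : D.map (MvPolynomial.eval₂Hom φ x) ≠ 0) :
    |∑ w : κ, (if IsSmoothSurface g n (member a α φ x w) then 0 else
      traceTwo g n (member a α φ x w))| ≤
      D.natDegree * ((4 * g + 2) * (Fintype.card κ * Real.sqrt (Fintype.card κ))) := by
  have h20 : (2 : κ) ≠ 0 := Ring.two_ne_zero h2
  have h5 : ∀ w : κ, |if IsSmoothSurface g n (member a α φ x w) then 0 else
      traceTwo g n (member a α φ x w)| ≤
      if (D.map (MvPolynomial.eval₂Hom φ x)).eval w = 0 then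
        ((4 * g + 2) * (Fintype.card κ * Real.sqrt (Fintype.card κ))) else 0 := by
    intro w
    split_ifs with h0 h1 h1
    · rw [abs_zero]
      positivity
    · rw [abs_zero]
    · exact tr_abs h h2 φ x w
    · exact (h0 (smooth_member h20 h hD1 hD2 (MvPolynomial.eval₂Hom φ x) w h1)).elim
  refine (abs_sum_le_sum_abs _ _).trans ((sum_le_sum fun t _ => h5 t).trans ?_)
  rw [← sum_filter, sum_const, nsmul_eq_mul]
  refine mul_le_mul_of_nonneg_right ?_ (by positivity)
  refine (card_zeros hD).trans ?_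
  exact_mod_cast natDegree_map_le

end

end Pool.Agent.Y707.SF
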