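import Mathlib

/-! Class groups and localization at products of primes. -/

set_option autoImplicit false
set_option maxHeartbeats 400000

namespace Pool.Agent.Y707.SF

open scoped nonZeroDivisors

section
variable {A : Type} [CommRing A] [IsDomain A]

theorem span_cancel {a : A} (ha : a ≠ 0) {I J : Ideal A}
    (h : Ideal.span {a} * I = Ideal.span {a} * J) : I = J :=
  (Ideal.span_singleton_mul_right_inj ha).1 h

/-- division by an element -/
theorem exists_div {a : A} {I : Ideal A} (h : I ≤ Ideal.span {a}) :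
    ∃ J : Ideal A, Ideal.span {a} * J = I := by
  refine ⟨Submodule.comap (LinearMap.mulLeft A a) I, ?_⟩
  ext x
  rw [Ideal.mem_span_singleton_mul]
  constructor
  · rintro ⟨z, hz, rfl⟩
    exact hz
  · intro hx
    obtain ⟨z, rfl⟩ := Ideal.mem_span_singleton'.1 (h hx)
    refine ⟨z, ?_, mul_comm _ _⟩
    show a * z ∈ I
    rw [mul_comm]
    exact hx

/-- an invertible ideal divides the principal ideals that it contains -/
theorem exists_quot {a : A} (ha : a ≠ 0) {I J : Ideal A} (h : I * J = Ideal.span {a}) {c : A}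
    (hc : c ∈ I) : ∃ J' : Ideal A, I * J' = Ideal.span {c} := by
  have h1 : Ideal.span {c} * J ≤ Ideal.span {a} := by
    rw [← h]
    exact Ideal.mul_mono_left (by rwa [Ideal.span_singleton_le_iff_mem])
  obtain ⟨J', hJ'⟩ := exists_div h1
  refine ⟨J', span_cancel ha ?_⟩
  calc Ideal.span {a} * (I * J') = I * (Ideal.span {a} * J') := by ring
    _ = I * (Ideal.span {c} * J) := by rw [hJ']
    _ = Ideal.span {c} * (I * J) := by ring
    _ = Ideal.span {a} * Ideal.span {c} := by rw [h, mul_comm]

/-- a factor of a product of prime elements is principal -/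
theorem principal_of_mul (f : Multiset A) : ∀ (I J : Ideal A), (∀ b ∈ f, Prime b) →
    I * J = Ideal.span {f.prod} → ∃ c, I = Ideal.span {c} := by
  induction f using Multiset.induction_on with
  | empty =>
    intro I J _ h
    rw [Multiset.prod_zero, Ideal.span_singleton_one] at h
    refine ⟨1, ?_⟩
    rw [Ideal.span_singleton_one, eq_top_iff, ← h]
    exact Ideal.mul_le_left
  | cons p f ih =>
    intro I J hf h
    have hp : Prime p := hf p (Multiset.mem_cons_self _ _)
    have hf' : ∀ b ∈ f, Prime b := fun b hb => hf b (Multiset.mem_cons_of_mem hb)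
    rw [Multiset.prod_cons, ← Ideal.span_singleton_mul_span_singleton] at h
    have hP : (Ideal.span {p} : Ideal A).IsPrime := (Ideal.span_singleton_prime hp.ne_zero).2 hp
    have hle : I * J ≤ Ideal.span {p} := by
      rw [h]
      exact Ideal.mul_le_left
    rcases (hP.mul_le).1 hle with h1 | h1
    · obtain ⟨I', rfl⟩ := exists_div h1
      rw [mul_assoc] at h
      obtain ⟨c, rfl⟩ := ih I' J hf' (span_cancel hp.ne_zero h)
      exact ⟨p * c, Ideal.span_singleton_mul_span_singleton _ _⟩
    · obtain ⟨J', rfl⟩ := exists_div h1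
      refine ih I J' hf' (span_cancel hp.ne_zero ?_)
      rw [← h]
      ring

end

section
variable {A B : Type} [CommRing A] [IsDomain A] [CommRing B] [IsDomain B] [Algebra A B]
  (S : Submonoid A) [IsLocalization S B]

/-- **Descent of principal ideals.** -/
theorem principal_descend (hS : ∀ s ∈ S, ∃ f : Multiset A, (∀ b ∈ f, Prime b) ∧
      Associated f.prod s) (hle : S ≤ A⁰) {I J : Ideal A} {a : A} (ha : a ≠ 0)
    (h : I * J = Ideal.span {a}) {z : B} (hz : I.map (algebraMap A B) = Ideal.span {z}) :
    ∃ c, I = Ideal.span {c} := by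
  have hinj : Function.Injective (algebraMap A B) := IsLocalization.injective B hle
  have hI0 : I ≠ ⊥ := by
    rintro rfl
    rw [Ideal.bot_mul] at h
    exact ha (Ideal.span_singleton_eq_bot.1 h.symm)
  have hIm : I.map (algebraMap A B) ≠ ⊥ := by
    intro h0
    exact hI0 ((Ideal.map_eq_bot_iff_of_injective hinj).1 h0)
  have hz0 : z ≠ 0 := by
    rintro rfl
    exact hIm (by rw [hz, Ideal.span_singleton_eq_bot])
  -- a generator in `I`
  have hzm : z ∈ I.map (algebraMap A B) := by
    rw [hz]
    exact Ideal.mem_span_singleton_self _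
  rw [IsLocalization.mem_map_algebraMap_iff S] at hzm
  obtain ⟨⟨⟨c, hc⟩, ⟨s, hs⟩⟩, hzs⟩ := hzm
  simp only at hzs
  have hspan : Ideal.span {algebraMap A B c} = I.map (algebraMap A B) := by
    rw [hz, ← hzs]
    exact Ideal.span_singleton_mul_right_unit (IsLocalization.map_units B ⟨s, hs⟩) z
  have hc0 : c ≠ 0 := by
    rintro rfl
    apply hIm
    rw [← hspan, map_zero, Ideal.span_singleton_eq_bot]
  obtain ⟨J', hJ'⟩ := exists_quot ha h hc
  have h1 : J'.map (algebraMap A B) = ⊤ := by
    have h2 : Ideal.span {z} * J'.map (algebraMap A B) = Ideal.span {z} * ⊤ := by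
      rw [← hz, ← Ideal.map_mul, hJ', Ideal.map_span, Set.image_singleton, hspan, Ideal.mul_top]
    exact span_cancel hz0 h2
  have h4 : (1 : B) ∈ J'.map (algebraMap A B) := by
    rw [h1]
    exact Submodule.mem_top
  rw [IsLocalization.mem_map_algebraMap_iff S] at h4
  obtain ⟨⟨⟨j, hj⟩, ⟨t, ht⟩⟩, hts⟩ := h4
  simp only at hts
  rw [one_mul] at hts
  have h5 : t ∈ J' := by
    rw [hinj hts]
    exact hj
  obtain ⟨J'', hJ''⟩ := exists_quot (I := J') (J := I) hc0 (by rw [mul_comm]; exact hJ') h5
  obtain ⟨f, hf, hft⟩ := hS t ht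
  rw [← Ideal.span_singleton_eq_span_singleton.2 hft] at hJ''
  obtain ⟨d, hd⟩ := principal_of_mul f J' J'' hf hJ''
  rw [hd] at hJ'
  have hd0 : d ≠ 0 := by
    rintro rfl
    rw [Ideal.span_singleton_zero, Ideal.mul_bot] at hJ'
    exact hc0 (Ideal.span_singleton_eq_bot.1 hJ'.symm)
  have h6 : c ∈ Ideal.span {d} := by
    rw [← Ideal.span_singleton_le_iff_mem, ← hJ']
    exact Ideal.mul_le_right
  obtain ⟨e, rfl⟩ := Ideal.mem_span_singleton'.1 h6
  refine ⟨e, span_cancel hd0 ?_⟩
  rw [mul_comm, hJ', Ideal.span_singleton_mul_span_singleton, mul_comm]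

open FractionalIdeal in
/-- every class is the class of an invertible integral ideal -/
theorem exists_integral (x : ClassGroup A) :
    ∃ (I J : Ideal A) (a : A) (u : (FractionalIdeal A⁰ (FractionRing A))ˣ), a ≠ 0 ∧
      I * J = Ideal.span {a} ∧ (u : FractionalIdeal A⁰ (FractionRing A)) = I ∧
      x = ClassGroup.mk (FractionRing A) u := by
  classical
  refine ClassGroup.induction (FractionRing A) ?_ x
  intro u
  obtain ⟨a, I, ha, h1⟩ := exists_eq_spanSingleton_mul (u : FractionalIdeal A⁰ (FractionRing A))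
  obtain ⟨b, J, hb, h2⟩ := exists_eq_spanSingleton_mul
    ((u⁻¹ : (FractionalIdeal A⁰ (FractionRing A))ˣ) : FractionalIdeal A⁰ (FractionRing A))
  have hia : algebraMap A (FractionRing A) a ≠ 0 := by
    intro h0
    exact ha ((IsFractionRing.injective A (FractionRing A)) (by rw [h0, map_zero]))
  have hib : algebraMap A (FractionRing A) b ≠ 0 := by
    intro h0
    exact hb ((IsFractionRing.injective A (FractionRing A)) (by rw [h0, map_zero]))
  -- the unit of the principal ideal `a`
  let ua : (FractionalIdeal A⁰ (FractionRing A))ˣ := toPrincipalIdeal A (FractionRing A)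
    (Units.mk0 _ hia)
  have hua : (ua : FractionalIdeal A⁰ (FractionRing A)) =
      spanSingleton A⁰ (algebraMap A (FractionRing A) a) := coe_toPrincipalIdeal _
  have hI : ((ua * u : (FractionalIdeal A⁰ (FractionRing A))ˣ) :
      FractionalIdeal A⁰ (FractionRing A)) = (I : FractionalIdeal A⁰ (FractionRing A)) := by
    rw [Units.val_mul, hua, h1, ← mul_assoc, spanSingleton_mul_spanSingleton,
      mul_inv_cancel₀ hia, spanSingleton_one, one_mul]
  refine ⟨I, J, a * b, ua * u, mul_ne_zero ha hb, ?_, hI, ?_⟩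
  · rw [← coeIdeal_inj (K := FractionRing A), coeIdeal_mul, ← hI, coeIdeal_span_singleton, map_mul]
    have h3 : (J : FractionalIdeal A⁰ (FractionRing A)) =
        spanSingleton A⁰ (algebraMap A (FractionRing A) b) *
          ((u⁻¹ : (FractionalIdeal A⁰ (FractionRing A))ˣ) :
            FractionalIdeal A⁰ (FractionRing A)) := by
      rw [h2, ← mul_assoc, spanSingleton_mul_spanSingleton, mul_inv_cancel₀ hib, spanSingleton_one,
        one_mul]
    rw [h3, Units.val_mul, hua, ← spanSingleton_mul_spanSingleton]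
    have h4 : (u : FractionalIdeal A⁰ (FractionRing A)) *
        ((u⁻¹ : (FractionalIdeal A⁰ (FractionRing A))ˣ) : FractionalIdeal A⁰ (FractionRing A)) =
        1 := Units.mul_inv u
    calc _ = spanSingleton A⁰ (algebraMap A (FractionRing A) a) *
          spanSingleton A⁰ (algebraMap A (FractionRing A) b) *
          ((u : FractionalIdeal A⁰ (FractionRing A)) *
        ((u⁻¹ : (FractionalIdeal A⁰ (FractionRing A))ˣ) :
          FractionalIdeal A⁰ (FractionRing A))) := by ring
      _ = _ := by rw [h4, mul_one]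
  · rw [map_mul]
    have h5 : ClassGroup.mk (FractionRing A) ua = 1 := by
      rw [ClassGroup.mk_eq_one_iff, hua]
      exact ⟨⟨_, by rw [coe_spanSingleton]⟩⟩
    rw [h5, one_mul]

open FractionalIdeal in
/-- **The class group embeds.** -/
theorem extended_injective [Module.IsTorsionFree A B]
    (hS : ∀ s ∈ S, ∃ f : Multiset A, (∀ b ∈ f, Prime b) ∧ Associated f.prod s) (hle : S ≤ A⁰) :
    Function.Injective (ClassGroup.extendedHom A B) := by
  rw [injective_iff_map_eq_one]
  intro x hx
  obtain ⟨I, J, a, u, ha, hIJ, hu, rfl⟩ := exists_integral x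
  rw [ClassGroup.extendedHom_mk, ClassGroup.mk_eq_one_iff] at hx
  have h1 : ((Units.map (FractionalIdeal.extendedHom (FractionRing B) B).toMonoidHom u :
      (FractionalIdeal B⁰ (FractionRing B))ˣ) : FractionalIdeal B⁰ (FractionRing B)) =
      ((I.map (algebraMap A B) : Ideal B) : FractionalIdeal B⁰ (FractionRing B)) := by
    rw [← FractionalIdeal.extendedHom_coeIdeal_eq_map (K := FractionRing A)
      (L := FractionRing B) (B := B), ← hu]
    rfl
  rw [h1] at hx
  have h2 : (I.map (algebraMap A B)).IsPrincipal := by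
    exact (IsFractionRing.coeSubmodule_isPrincipal (R := B) (K := FractionRing B)
      (I := I.map (algebraMap A B))).1 (by simpa using hx)
  obtain ⟨z, hz⟩ := h2.principal
  obtain ⟨c, hc⟩ := principal_descend S hS hle ha hIJ hz
  rw [ClassGroup.mk_eq_one_iff, hu, hc]
  rw [coeIdeal_span_singleton, coe_spanSingleton]
  exact ⟨⟨_, rfl⟩⟩

end

end Pool.Agent.Y707.SF
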