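import Pool.Agent.Y707.SF.Fld
import Pool.Agent.Y707.PC.Fin

/-! The function field of `V × 𝔸¹`, and the number of the classes. -/

set_option autoImplicit false
set_option maxHeartbeats 400000

namespace Pool.Agent.Y707.SF

open Polynomial Pool.Agent.Y707.PC
open scoped nonZeroDivisors

section
variable {R : Type} [CommRing R] {k : ℕ}

/-- polynomials in one more variable -/
noncomputable def sg (R : Type) [CommRing R] (k : ℕ) :
    (MvPolynomial (Fin k) R)[X] ≃+* MvPolynomial (Fin (k + 1)) R :=
  (MvPolynomial.finSuccEquiv R k).symm.toRingEquiv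

theorem sg_X : sg R k X = MvPolynomial.X 0 := by
  show (MvPolynomial.finSuccEquiv R k).symm X = _
  rw [AlgEquiv.symm_apply_eq, MvPolynomial.finSuccEquiv_X_zero]

theorem sg_CX (i : Fin k) : sg R k (C (MvPolynomial.X i)) = MvPolynomial.X i.succ := by
  show (MvPolynomial.finSuccEquiv R k).symm (C (MvPolynomial.X i)) = _
  rw [AlgEquiv.symm_apply_eq, MvPolynomial.finSuccEquiv_X_succ]

theorem sg_CC (c : R) : sg R k (C (MvPolynomial.C c)) = MvPolynomial.C c := by
  exact RingHom.congr_fun (MvPolynomial.finSuccEquiv_comp_C_eq_C (R := R) k) c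

/-- two homomorphisms on the polynomials in one more variable -/
theorem sg_ext {D : Type} [CommRing D] {φ ψ : (MvPolynomial (Fin k) R)[X] →+* D}
    (h1 : ∀ c, φ (C (MvPolynomial.C c)) = ψ (C (MvPolynomial.C c)))
    (h2 : ∀ i, φ (C (MvPolynomial.X i)) = ψ (C (MvPolynomial.X i))) (h3 : φ X = ψ X) :
    φ = ψ := by
  apply Polynomial.ringHom_ext
  · intro c
    have h : φ.comp C = ψ.comp C := MvPolynomial.ringHom_ext h1 h2
    exact RingHom.congr_fun h c
  · exact h3

theorem sg_map {R' : Type} [CommRing R'] (ι : R →+* R') (P : (MvPolynomial (Fin k) R)[X]) :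
    MvPolynomial.map ι (sg R k P) = sg R' k (P.map (MvPolynomial.map ι)) := by
  have h : (MvPolynomial.map ι : MvPolynomial (Fin (k + 1)) R →+* _).comp
      (sg R k : (MvPolynomial (Fin k) R)[X] →+* MvPolynomial (Fin (k + 1)) R) =
      (sg R' k : (MvPolynomial (Fin k) R')[X] →+* MvPolynomial (Fin (k + 1)) R').comp
        (mapRingHom (MvPolynomial.map ι)) := by
    apply sg_ext
    · intro c
      simp only [RingHom.comp_apply, RingEquiv.coe_toRingHom, sg_CC, coe_mapRingHom,
        Polynomial.map_C, MvPolynomial.map_C]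
    · intro i
      simp only [RingHom.comp_apply, RingEquiv.coe_toRingHom, sg_CX, coe_mapRingHom,
        Polynomial.map_C, MvPolynomial.map_X]
    · simp only [RingHom.comp_apply, RingEquiv.coe_toRingHom, sg_X, coe_mapRingHom,
        Polynomial.map_X, MvPolynomial.map_X]
  exact RingHom.congr_fun h P

/-- values -/
theorem sg_eval {κ : Type} [CommRing κ] (φ : R →+* κ) (t : κ) (x : Fin k → κ)
    (P : (MvPolynomial (Fin k) R)[X]) :
    MvPolynomial.eval₂Hom φ (Fin.cons t x : Fin (k + 1) → κ) (sg R k P) =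
      (P.map (MvPolynomial.eval₂Hom φ x)).eval t := by
  have h : (MvPolynomial.eval₂Hom φ (Fin.cons t x : Fin (k + 1) → κ)).comp
      (sg R k : (MvPolynomial (Fin k) R)[X] →+* MvPolynomial (Fin (k + 1)) R) =
      (evalRingHom t).comp (mapRingHom (MvPolynomial.eval₂Hom φ x)) := by
    apply sg_ext
    · intro c
      simp only [RingHom.comp_apply, RingEquiv.coe_toRingHom, sg_CC, coe_mapRingHom,
        Polynomial.map_C, MvPolynomial.eval₂Hom_C, coe_evalRingHom, eval_C]
    · intro i
      simp only [RingHom.comp_apply, RingEquiv.coe_toRingHom, sg_CX, coe_mapRingHom,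
        Polynomial.map_C, MvPolynomial.eval₂Hom_X', coe_evalRingHom, eval_C, Fin.cons_succ]
    · simp only [RingHom.comp_apply, RingEquiv.coe_toRingHom, sg_X, coe_mapRingHom,
        Polynomial.map_X, MvPolynomial.eval₂Hom_X', coe_evalRingHom, eval_X, Fin.cons_zero]
  exact RingHom.congr_fun h P

end

section
variable {E M M' : Type} [Field E] [Field M] [Algebra E M] [Field M'] [Algebra M[X] M']
  [IsFractionRing M[X] M'] [Algebra E M'] [IsScalarTower E M[X] M'] {k l : ℕ}

variable (M') in
/-- the coordinates on `V × 𝔸¹` -/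
noncomputable def xi1 (ξ : Fin k → M) : Fin (k + 1) → M' :=
  Fin.cons (algebraMap M[X] M' X) fun i => algebraMap M[X] M' (C (ξ i))

theorem aeval_xi1 (ξ : Fin k → M) (P : (MvPolynomial (Fin k) E)[X]) :
    MvPolynomial.aeval (xi1 M' ξ) (sg E k P) =
      algebraMap M[X] M' (P.map (MvPolynomial.aeval ξ : MvPolynomial (Fin k) E →ₐ[E] M).toRingHom) := by
  have h : ((MvPolynomial.aeval (xi1 M' ξ) : MvPolynomial (Fin (k + 1)) E →ₐ[E] M').toRingHom).comp
      (sg E k : (MvPolynomial (Fin k) E)[X] →+* MvPolynomial (Fin (k + 1)) E) =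
        (algebraMap M[X] M').comp
        (mapRingHom (MvPolynomial.aeval ξ : MvPolynomial (Fin k) E →ₐ[E] M).toRingHom) := by
    apply sg_ext
    · intro c
      have e : algebraMap E M' c = algebraMap M[X] M' (C (algebraMap E M c)) := by
        rw [IsScalarTower.algebraMap_apply E M[X] M']
        rfl
      simp only [RingHom.comp_apply, RingEquiv.coe_toRingHom, sg_CC, coe_mapRingHom,
        Polynomial.map_C, AlgHom.toRingHom_eq_coe, RingHom.coe_coe, MvPolynomial.aeval_C, e]
    · intro i
      simp only [RingHom.comp_apply, RingEquiv.coe_toRingHom, sg_CX, coe_mapRingHom,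
        Polynomial.map_C, AlgHom.toRingHom_eq_coe, RingHom.coe_coe, MvPolynomial.aeval_X, xi1,
        Fin.cons_succ]
    · simp only [RingHom.comp_apply, RingEquiv.coe_toRingHom, sg_X, coe_mapRingHom,
        Polynomial.map_X, AlgHom.toRingHom_eq_coe, RingHom.coe_coe, MvPolynomial.aeval_X, xi1,
        Fin.cons_zero]
  exact RingHom.congr_fun h P

theorem algInd_xi1 {ξ : Fin k → M} (hξ : AlgebraicIndependent E ξ) :
    AlgebraicIndependent E (xi1 M' ξ) := by
  rw [AlgebraicIndependent, injective_iff_map_eq_zero]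
  intro p hp
  obtain ⟨P, rfl⟩ := (sg E k).surjective p
  rw [aeval_xi1, map_eq_zero_iff _ (IsFractionRing.injective M[X] M')] at hp
  have h2 : Function.Injective (MvPolynomial.aeval ξ : MvPolynomial (Fin k) E →ₐ[E] M).toRingHom :=
    hξ
  rw [Polynomial.map_eq_zero_iff h2] at hp
  rw [hp, map_zero]

theorem top_xi1 {ξ : Fin k → M} {η : Fin l → M}
    (h : IntermediateField.adjoin E (Set.range ξ ∪ Set.range η) = ⊤) :
    IntermediateField.adjoin E (Set.range (xi1 M' ξ) ∪
      Set.range fun i => algebraMap M[X] M' (C (η i))) = ⊤ := by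
  set T := IntermediateField.adjoin E (Set.range (xi1 M' ξ) ∪
      Set.range fun i => algebraMap M[X] M' (C (η i))) with hT
  -- the embedding of `M`
  let j : M →ₐ[E] M' :=
    { toRingHom := (algebraMap M[X] M').comp C
      commutes' := fun c => by
        show algebraMap M[X] M' (C (algebraMap E M c)) = algebraMap E M' c
        rw [IsScalarTower.algebraMap_apply E M[X] M']
        rfl }
  have hM : ∀ z : M, algebraMap M[X] M' (C z) ∈ T := by
    intro z
    have h1 : IntermediateField.adjoin E (Set.range ξ ∪ Set.range η) ≤ T.comap j := by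
      rw [IntermediateField.adjoin_le_iff]
      rintro z (⟨i, rfl⟩ | ⟨i, rfl⟩)
      · show algebraMap M[X] M' (C (ξ i)) ∈ T
        refine IntermediateField.subset_adjoin _ _ (Or.inl ⟨i.succ, ?_⟩)
        unfold xi1
        rw [Fin.cons_succ]
      · show algebraMap M[X] M' (C (η i)) ∈ T
        exact IntermediateField.subset_adjoin _ _ (Or.inr ⟨i, rfl⟩)
    rw [h] at h1
    exact h1 (IntermediateField.mem_top (x := z))
  have hX : algebraMap M[X] M' X ∈ T :=
    IntermediateField.subset_adjoin _ _ (Or.inl ⟨0, by unfold xi1; rw [Fin.cons_zero]⟩)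
  have hp : ∀ p : M[X], algebraMap M[X] M' p ∈ T := by
    intro p
    induction p using Polynomial.induction_on with
    | C c => exact hM c
    | add p q hp hq =>
      rw [map_add]
      exact add_mem hp hq
    | monomial n c hp =>
      rw [pow_succ, ← mul_assoc, map_mul]
      exact mul_mem hp hX
  rw [eq_top_iff]
  intro z _
  obtain ⟨p, q, -, rfl⟩ := IsFractionRing.div_surjective (A := M[X]) z
  exact div_mem (hp p) (hp q)

/-- **Squares in the function field of `V × 𝔸¹`.** -/
theorem kum1 [CharZero E] {ξ : Fin k → M} (hξ : AlgebraicIndependent E ξ)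
    {g : Fin l → MvPolynomial (Fin k) E} (hg : ∀ i, g i ≠ 0) {η : Fin l → M}
    (hη : ∀ i, η i ^ 2 = MvPolynomial.aeval ξ (g i))
    (htop : IntermediateField.adjoin E (Set.range ξ ∪ Set.range η) = ⊤)
    (P : (MvPolynomial (Fin k) E)[X]) :
    IsSquare (algebraMap M[X] M'
      (P.map (MvPolynomial.aeval ξ : MvPolynomial (Fin k) E →ₐ[E] M).toRingHom)) ↔
      ∃ S : Finset (Fin l), IsSquare (P * C (∏ i ∈ S, g i)) := by
  rw [← aeval_xi1, kum (M := M') (algInd_xi1 hξ) (g := fun i => sg E k (C (g i))) (fun i h0 => hg i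
    (C_eq_zero.1 ((sg E k).injective (by rw [h0, map_zero]))))
    (η := fun i => algebraMap M[X] M' (C (η i))) (fun i => ?_) (top_xi1 htop)]
  · refine exists_congr fun S => ?_
    have e : sg E k P * ∏ i ∈ S, sg E k (C (g i)) = sg E k (P * C (∏ i ∈ S, g i)) := by
      rw [map_mul, map_prod, map_prod]
    rw [e]
    constructor
    · rintro ⟨z, hz⟩
      refine ⟨(sg E k).symm z, ?_⟩
      rw [← map_mul, ← hz, RingEquiv.symm_apply_apply]
    · rintro ⟨z, hz⟩
      exact ⟨sg E k z, by rw [hz, map_mul]⟩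
  · rw [aeval_xi1, ← map_pow, ← C_pow, hη, Polynomial.map_C]
    rfl

end

end Pool.Agent.Y707.SF
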