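import Pool.Agent.Y707.SF.Avg

/-! The data with one more variable. -/

set_option autoImplicit false
set_option maxHeartbeats 400000

namespace Pool.Agent.Y707.SF

open Polynomial Finset NumberField
open Pool.Agent.Y707.PC

section
variable {K : Type} [Field K] [NumberField K] {k l r g n : ℕ}
  {G : Fin l → MvPolynomial (Fin k) (𝓞 K)} {a : (MvPolynomial (Fin k) (𝓞 K))[X][X]}
  {α : Fin r → (MvPolynomial (Fin k) (𝓞 K))[X]}

theorem indep1 (h : ∀ S : Finset (Fin l), S.Nonempty → ¬ IsConstSq (∏ i ∈ S, G i)) :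
    ∀ S : Finset (Fin l), S.Nonempty → ¬ IsConstSq (∏ i ∈ S, G1 G i) := by
  rintro S hS ⟨c, d, hc, hd, H, hH⟩
  refine h S hS ⟨c, d, hc, hd, ((sg (𝓞 K) k).symm H).eval 0, ?_⟩
  let θ : MvPolynomial (Fin (k + 1)) (𝓞 K) →+* MvPolynomial (Fin k) (𝓞 K) :=
    (evalRingHom 0).comp ((sg (𝓞 K) k).symm : MvPolynomial (Fin (k + 1)) (𝓞 K) →+*
      (MvPolynomial (Fin k) (𝓞 K))[X])
  have hC : ∀ z, θ (MvPolynomial.C z) = MvPolynomial.C z := by
    intro z
    show ((sg (𝓞 K) k).symm (MvPolynomial.C z)).eval 0 = _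
    rw [← sg_CC, RingEquiv.symm_apply_apply, eval_C]
  have hG : θ (∏ i ∈ S, G1 G i) = ∏ i ∈ S, G i := by
    rw [map_prod]
    refine prod_congr rfl fun i _ => ?_
    show ((sg (𝓞 K) k).symm (sg (𝓞 K) k (C (G i)))).eval 0 = _
    rw [RingEquiv.symm_apply_apply, eval_C]
  have h1 := congrArg θ hH
  rw [map_mul, map_mul, map_pow, hC, hC, hG] at h1
  exact h1

theorem alpha1_inj (h : Function.Injective α) : Function.Injective (α1 α) :=
  (sg (𝓞 K) k).injective.comp h

theorem count_eq (E : IntermediateField K (AlgebraicClosure K)) :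
    count (G1 G) (a1 a) (α1 α) E = classes G a α E := by
  unfold count classes
  refine Nat.card_congr (Equiv.subtypeEquivRight fun j => exists_congr fun S => ?_)
  have e : (a1 a).eval (α1 α j) * ∏ i ∈ S, G1 G i =
      sg (𝓞 K) k (a.eval (α j) * C (∏ i ∈ S, G i)) := by
    rw [map_mul, eval_a1, map_prod, map_prod]
    rfl
  rw [e, sg_map]
  constructor
  · rintro ⟨z, hz⟩
    refine ⟨(sg E k).symm z, ?_⟩
    rw [← map_mul, ← hz, RingEquiv.symm_apply_apply]
  · rintro ⟨z, hz⟩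
    exact ⟨sg E k z, by rw [hz, map_mul]⟩

end

end Pool.Agent.Y707.SF
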