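import Mathlib

/-! The partial derivative with respect to the inner variable. -/

set_option autoImplicit false
set_option maxHeartbeats 400000

namespace Pool.Agent.Y707.SF

open Polynomial

section
variable {B D : Type} [CommRing B] [CommRing D]

/-- The derivative of a polynomial `f(t, X)`, a polynomial in `X` whose coefficients are polynomials
in `t`, with respect to `t`. -/
noncomputable def dt (f : B[X][X]) : B[X][X] :=
  Bivariate.swap (derivative (Bivariate.swap f))

theorem dt_add (p q : B[X][X]) : dt (p + q) = dt p + dt q := by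
  unfold dt
  rw [map_add, derivative_add, map_add]

theorem dt_sub (p q : B[X][X]) : dt (p - q) = dt p - dt q := by
  unfold dt
  rw [map_sub, derivative_sub, map_sub]

theorem dt_mul (p q : B[X][X]) : dt (p * q) = dt p * q + p * dt q := by
  unfold dt
  rw [map_mul, derivative_mul, map_add, map_mul, map_mul, Bivariate.swap_swap_apply,
    Bivariate.swap_swap_apply]

theorem dt_C (c : B[X]) : dt (C c) = C (derivative c) := by
  unfold dt
  rw [Bivariate.swap_C, derivative_map, Bivariate.swap_map_C]

theorem dt_X : dt (X : B[X][X]) = 0 := by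
  unfold dt
  rw [Bivariate.swap_Y, derivative_C, map_zero]

theorem swap_map' (θ : B →+* D) (f : B[X][X]) :
    Bivariate.swap (f.map (mapRingHom θ)) = (Bivariate.swap f).map (mapRingHom θ) := by
  have h : ((Bivariate.swap (R := D)) : D[X][X] →+* D[X][X]).comp (mapRingHom (mapRingHom θ)) =
      (mapRingHom (mapRingHom θ)).comp ((Bivariate.swap (R := B)) : B[X][X] →+* B[X][X]) := by
    apply Polynomial.ringHom_ext
    · intro c
      have h2 : (((Bivariate.swap (R := D)) : D[X][X] →+* D[X][X]).comp
          (mapRingHom (mapRingHom θ))).comp C =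
          ((mapRingHom (mapRingHom θ)).comp
            ((Bivariate.swap (R := B)) : B[X][X] →+* B[X][X])).comp C := by
        apply Polynomial.ringHom_ext
        · intro z
          simp [Bivariate.swap_C_C]
        · simp [Bivariate.swap_X]
      exact RingHom.congr_fun h2 c
    · simp [Bivariate.swap_Y]
  exact RingHom.congr_fun h f

theorem dt_map (θ : B →+* D) (f : B[X][X]) :
    dt (f.map (mapRingHom θ)) = (dt f).map (mapRingHom θ) := by
  unfold dt
  rw [swap_map', derivative_map, swap_map']

/-- the derivatives at a curve `X = β(t)` on which `f` is a square -/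
theorem smooth_pt {f : B[X][X]} {β c : B[X]} (hc : f.eval β = c ^ 2)
    (hs : (1 : B[X][X]) ∈ Ideal.span {f, derivative f, dt f}) :
    ∃ e : B[X][X], f - C c ^ 2 = (X - C β) * e ∧
      ∃ x y z : B[X][X], 1 = x * (X - C β) + y * C c + z * e := by
  have h1 : X - C β ∣ f - C c ^ 2 := by
    rw [dvd_iff_isRoot, IsRoot.def, eval_sub, eval_pow, eval_C, hc, sub_self]
  obtain ⟨e, he⟩ := h1
  refine ⟨e, he, ?_⟩
  have hf : f = C c ^ 2 + (X - C β) * e := by rw [← he]; ring
  have hX : derivative f = e + (X - C β) * derivative e := by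
    conv_lhs => rw [hf]
    rw [derivative_add, derivative_mul, derivative_sub, derivative_X, derivative_C, ← C_pow,
      derivative_C]
    ring
  have ht : dt f = C (2 * c * derivative c) - C (derivative β) * e + (X - C β) * dt e := by
    conv_lhs => rw [hf]
    rw [dt_add, dt_mul, dt_sub, dt_X, dt_C, ← C_pow, dt_C, derivative_pow]
    simp only [map_mul, C_pow, C_neg, zero_sub, neg_mul, pow_one, Nat.cast_ofNat, map_ofNat,
      Nat.add_one_sub_one]
    ring
  rw [Ideal.mem_span_insert] at hs
  obtain ⟨A₁, z, hz, h2⟩ := hs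
  rw [Ideal.mem_span_pair] at hz
  obtain ⟨A₂, A₃, h3⟩ := hz
  refine ⟨A₁ * e + A₂ * derivative e + A₃ * dt e,
    A₁ * C c + A₃ * C (2 * derivative c), A₂ - A₃ * C (derivative β), ?_⟩
  rw [h2, ← h3, hX, ht]
  conv_lhs => rw [hf]
  simp only [map_mul]
  ring

end

end Pool.Agent.Y707.SF
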