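import Pool.Agent.Y707.PC.Fin
import Pool.Agent.Y707.PR.Sys
import Pool.Agent.Y707.SF.Dt

/-!
# Linear pencils of surfaces with a hyperelliptic fibration

The surfaces are `Y ^ 2 = f(t, X)`, where `f` is monic of degree `2 g + 1` in `X`, and the coefficient of
`X ^ i` is a polynomial in `t` of degree at most `2 n (2 g + 1 - i)`.  The projective surface is the
double cover of the Hirzebruch surface `F_{2n}` with this affine equation, branched along the section
`X = ∞` and the closure of the curve `f = 0`, which does not meet it.  It is fibred over the projective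
line with coordinate `t`, the fibres are curves of arithmetic genus `g` with one point at infinity, and
the fibre over `t = ∞` is `Y ^ 2 = f_∞(X)`, where `f_∞` consists of the coefficients of the highest
possible degree.  For `g = 1` these are the Weierstrass equations of the elliptic surfaces over the
projective line: rational surfaces for `n = 1`, K3 surfaces for `n = 2`.
-/

set_option autoImplicit false
set_option maxHeartbeats 400000

namespace Pool.Agent.Y707.SF

open Polynomial NumberField IsDedekindDomain
open Pool.Agent.Y707.PC (IsConstSq pen valueAt)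

section
variable {B : Type} [CommRing B]

/-- The polynomial `f_∞` of the fibre over `t = ∞`. -/
noncomputable def atInfinity (g n : ℕ) (f : B[X][X]) : B[X] :=
  ∑ i ∈ Finset.range (2 * g + 2), monomial i ((f.coeff i).coeff (2 * n * (2 * g + 1 - i)))

/-- `f` has degree at most `N` in `X`, and the coefficient of `X ^ i` has degree at most
`2 n (N - i)` in `t`. -/
def HasWeight (n N : ℕ) (f : B[X][X]) : Prop :=
  f.natDegree ≤ N ∧ ∀ i ≤ N, (f.coeff i).natDegree + 2 * n * i ≤ 2 * n * N

/-- The surface `Y ^ 2 = f(t, X)` over the field `B` is smooth, with a smooth fibre over `t = ∞`: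
`f`, `∂f/∂X` and `∂f/∂t` generate the unit ideal, and so do `f_∞` and its derivative. -/
structure IsSmoothSurface (g n : ℕ) (f : B[X][X]) : Prop where
  two : IsUnit (2 : B)
  monic : f.Monic
  degree : f.natDegree = 2 * g + 1
  weight : HasWeight n (2 * g + 1) f
  finite : (1 : B[X][X]) ∈ Ideal.span {f, derivative f, dt f}
  infinite : (1 : B[X]) ∈ Ideal.span {atInfinity g n f, derivative (atInfinity g n f)}

/-- The trace of the Frobenius on `H²` of the smooth projective surface `Y ^ 2 = f(t, X)` over the finite
field `κ` with `q` elements: it is the number of the points minus `q ^ 2 + 1`, because `H¹` and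
`H³` vanish (for `n ≥ 1`).  The points are those with finite `t` and `X`, those with finite `X` over
`t = ∞`, and the `q + 1` points with `X = ∞`. -/
noncomputable def traceTwo {κ : Type} [Field κ] (g n : ℕ) (f : κ[X][X]) : ℝ :=
  (Nat.card {P : κ × κ × κ // P.2.2 ^ 2 = f.evalEval P.1 P.2.1} : ℝ) +
    (Nat.card {P : κ × κ // P.2 ^ 2 = (atInfinity g n f).eval P.1} : ℝ) +
    ((Nat.card κ : ℝ) + 1) - ((Nat.card κ : ℝ) ^ 2 + 1)

end

section
variable {K : Type} [Field K] [NumberField K] {k l r : ℕ}

/-- The generic member `a(x, t, X) + w ∏ (X - α_j(x, t))` of the pencil, a polynomial in `X` whose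
coefficients are polynomials in `t` with coefficients in `𝓞_K[x][w]`. -/
noncomputable def family (a : (MvPolynomial (Fin k) (𝓞 K))[X][X])
    (α : Fin r → (MvPolynomial (Fin k) (𝓞 K))[X]) : (MvPolynomial (Fin k) (𝓞 K))[X][X][X] :=
  pen (B := (MvPolynomial (Fin k) (𝓞 K))[X][X]) a α
    (mapRingHom (C : MvPolynomial (Fin k) (𝓞 K) →+* (MvPolynomial (Fin k) (𝓞 K))[X])) (C X)

/-- The conditions on the data: no product of some of the `G_i` is a constant times a square; `a` is
monic of degree `2 g + 1` in `X`; there are at most `2 g` functions `α_j`, polynomials in `t` of degree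
at most `2 n`, they are distinct, and the `a(t, α_j)` are nonzero; `a` has the right degrees in `t`; and
the generic member `F = a(t, X) + w ∏ (X - α_j(t))` is smooth with a smooth fibre over `t = ∞`: some
nonzero `D` in `𝓞_K[x][w]` lies in the ideals of `F`, `∂F/∂X`, `∂F/∂t` and of `F_∞` and its
derivative. -/
structure IsSurfacePencil (g n : ℕ) (G : Fin l → MvPolynomial (Fin k) (𝓞 K))
    (a : (MvPolynomial (Fin k) (𝓞 K))[X][X]) (α : Fin r → (MvPolynomial (Fin k) (𝓞 K))[X]) :
    Prop where
  independent : ∀ S : Finset (Fin l), S.Nonempty → ¬ IsConstSq (∏ i ∈ S, G i)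
  positive : 1 ≤ n
  monic : a.Monic
  degree : a.natDegree = 2 * g + 1
  weight : HasWeight n (2 * g + 1) a
  number : r ≤ 2 * g
  weights : ∀ j, (α j).natDegree ≤ 2 * n
  distinct : Function.Injective α
  nonzero : ∀ j, a.eval (α j) ≠ 0
  smooth : ∃ D : (MvPolynomial (Fin k) (𝓞 K))[X], D ≠ 0 ∧
    C (C D) ∈ Ideal.span {family a α, derivative (family a α), dt (family a α)} ∧
    C D ∈ Ideal.span {atInfinity g n (family a α), derivative (atInfinity g n (family a α))}

/-- The number of the `j` such that `a(t, α_j(t))` becomes a square in `E(V)(t)`, for the variety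
`V` with the equations `y_i ^ 2 = G_i(x)`: for some `S` its product with the `G_i` with `i` in `S` is
a square over `E`. -/
noncomputable def classes (G : Fin l → MvPolynomial (Fin k) (𝓞 K))
    (a : (MvPolynomial (Fin k) (𝓞 K))[X][X]) (α : Fin r → (MvPolynomial (Fin k) (𝓞 K))[X])
    (E : IntermediateField K (AlgebraicClosure K)) : ℕ :=
  Nat.card {j : Fin r // ∃ S : Finset (Fin l), IsSquare
    ((a.eval (α j) * C (∏ i ∈ S, G i)).map
      (MvPolynomial.map ((algebraMap K E).comp (algebraMap (𝓞 K) K))))}

/-- The member `a(x, t, X) + w ∏ (X - α_j(x, t))` at the point `(x, w)` over the field `κ`. -/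
noncomputable def member (a : (MvPolynomial (Fin k) (𝓞 K))[X][X])
    (α : Fin r → (MvPolynomial (Fin k) (𝓞 K))[X]) {κ : Type} [Field κ] (φ : 𝓞 K →+* κ)
    (x : Fin k → κ) (w : κ) : κ[X][X] :=
  pen a α (mapRingHom (MvPolynomial.eval₂Hom φ x)) (C w)

/-- The points `(x, y, w)` of `V × 𝔸¹` over the field `κ` with nonzero `y_i` over which the
surface is smooth, with a smooth fibre over `t = ∞`. -/
def goodPoints (g n : ℕ) (G : Fin l → MvPolynomial (Fin k) (𝓞 K))
    (a : (MvPolynomial (Fin k) (𝓞 K))[X][X]) (α : Fin r → (MvPolynomial (Fin k) (𝓞 K))[X])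
    {κ : Type} [Field κ] (φ : 𝓞 K →+* κ) : Set ((Fin k → κ) × (Fin l → κ) × κ) :=
  {P | (∀ i, P.2.1 i ^ 2 = MvPolynomial.eval₂Hom φ P.1 (G i) ∧ P.2.1 i ≠ 0) ∧
    IsSmoothSurface g n (member a α φ P.1 P.2.2)}

/-- The fibre average `q^{-(k + 1)} ∑ b(fibre)` of the traces on `H²` over the good points of the base,
of dimension `k + 1`. -/
noncomputable def averageTwo (g n : ℕ) (G : Fin l → MvPolynomial (Fin k) (𝓞 K))
    (a : (MvPolynomial (Fin k) (𝓞 K))[X][X]) (α : Fin r → (MvPolynomial (Fin k) (𝓞 K))[X])
    {κ : Type} [Field κ] (φ : 𝓞 K →+* κ) : ℝ :=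
  ((Nat.card κ : ℝ) ^ (k + 1))⁻¹ *
    ∑ᶠ P ∈ goodPoints g n G a α φ, traceTwo g n (member a α φ P.1 P.2.2)

/-- The generic member over `M(w)`, at the point `ξ` with coordinates in the field `M ⊇ E`. -/
noncomputable def genericSurface (a : (MvPolynomial (Fin k) (𝓞 K))[X][X])
    (α : Fin r → (MvPolynomial (Fin k) (𝓞 K))[X]) (E : IntermediateField K (AlgebraicClosure K))
    {M : Type} [Field M] [Algebra E M] (ξ : Fin k → M) : (RatFunc M)[X][X] :=
  pen a α (mapRingHom ((algebraMap M (RatFunc M)).comp (valueAt E ξ))) (C RatFunc.X)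

end

/-- The Néron-Severi group of the smooth surface `Y ^ 2 = f(t, X)` over the field `L` has rank
`m + 2`: the class group of the coordinate ring `L[t, X, Y] / (Y ^ 2 - f)` of the affine part is free of
rank `m`.  (The other part consists of the section `X = ∞` and of the fibre over `t = ∞`, two irreducible
curves with independent classes; numerically trivial and algebraically trivial classes are zero, as
`H¹` of the structure sheaf vanishes and the surface has no torsion classes, and all Galois invariant
classes are classes of divisors over `L`, as there is a rational point.) -/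
def PicardRankAddTwo {L : Type} [Field L] (f : L[X][X]) (m : ℕ) : Prop :=
  ∃ _ : IsDomain (AdjoinRoot (X ^ 2 - C f : L[X][X][X])),
    Module.Free ℤ (Additive (ClassGroup (AdjoinRoot (X ^ 2 - C f : L[X][X][X])))) ∧
    Module.Finite ℤ (Additive (ClassGroup (AdjoinRoot (X ^ 2 - C f : L[X][X][X])))) ∧
    Module.finrank ℤ (Additive (ClassGroup (AdjoinRoot (X ^ 2 - C f : L[X][X][X])))) = m

end Pool.Agent.Y707.SF
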