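import Pool.Agent.Y707.SF.Alg
import Pool.Agent.Y707.PC.AlgTop

/-! The fields of a pencil of surfaces: `M(t) ⊂ M(w)(t) = M(t)(w)`. -/

set_option autoImplicit false
set_option maxHeartbeats 400000

namespace Pool.Agent.Y707.SF

open Polynomial Pool.Agent.TH943.HJ Pool.Agent.Y707.PC
open scoped nonZeroDivisors

section
variable {M B M' L' : Type} [Field M] [Field B] [Algebra M B] [Field M'] [Field L']
  [Algebra M[X] M'] [IsFractionRing M[X] M'] [Algebra B[X] L'] [IsFractionRing B[X] L']
  [Algebra M' L']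
  (hcomp : ∀ p : M[X], algebraMap M' L' (algebraMap M[X] M' p) =
    algebraMap B[X] L' (p.map (algebraMap M B))) {w : B}

include hcomp

theorem aeval_ev (Q : M[X][X]) :
    aeval (algebraMap B[X] L' (C w)) (Q.map (algebraMap M[X] M')) =
      algebraMap B[X] L' (Q.eval₂ (mapRingHom (algebraMap M B)) (C w)) := by
  rw [aeval_def, eval₂_map, hom_eval₂]
  congr 1
  exact RingHom.ext fun p => hcomp p

/-- `w` is transcendental over `M(t)` -/
theorem transc_w (hw : Transcendental M w) :
    Transcendental M' (algebraMap B[X] L' (C w)) := by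
  rintro ⟨P, hP0, hP⟩
  apply hP0
  obtain ⟨b, hb⟩ := IsLocalization.integerNormalization_map_to_map M[X]⁰ P
  have hb0 : algebraMap M[X] M' (b : M[X]) ≠ 0 := by
    rw [Ne, map_eq_zero_iff _ (IsFractionRing.injective M[X] M')]
    exact nonZeroDivisors.ne_zero b.2
  have hb' : (IsLocalization.integerNormalization M[X]⁰ P).map (algebraMap M[X] M') =
      C (algebraMap M[X] M' (b : M[X])) * P := by
    rw [hb, ← smul_eq_C_mul, IsScalarTower.algebraMap_smul]
  have h1 := aeval_ev hcomp (w := w) (IsLocalization.integerNormalization M[X]⁰ P)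
  rw [hb', map_mul, hP, mul_zero] at h1
  have h2 := (map_eq_zero_iff _ (IsFractionRing.injective B[X] L')).1 h1.symm
  have h3 := ev_omega hw _ h2
  rw [h3, Polynomial.map_zero] at hb'
  rcases mul_eq_zero.1 hb'.symm with h | h
  · exact absurd (C_eq_zero.1 h) hb0
  · exact h

omit hcomp [Algebra M[X] M'] [IsFractionRing M[X] M'] [Algebra M' L'] [Field M'] [Field L']
  [Algebra B[X] L'] [IsFractionRing B[X] L'] in
/-- common denominators -/
theorem clear_den (hB : ∀ z : B, ∃ p q : M[X], aeval w q ≠ 0 ∧ z * aeval w q = aeval w p)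
    (p : B[X]) : ∃ (q : M[X]) (Q : M[X][X]), aeval w q ≠ 0 ∧
      C (aeval w q) * p = Q.eval₂ (mapRingHom (algebraMap M B)) (C w) := by
  have hup : ∀ q : M[X], (q.map C : M[X][X]).eval₂ (mapRingHom (algebraMap M B)) (C w) =
      C (aeval w q) := by
    intro q
    rw [eval₂_map, aeval_def, hom_eval₂]
    congr 1
    ext z
    simp
  induction p using Polynomial.induction_on' with
  | add p₁ p₂ h1 h2 =>
    obtain ⟨q₁, Q₁, hq₁, e₁⟩ := h1
    obtain ⟨q₂, Q₂, hq₂, e₂⟩ := h2
    refine ⟨q₁ * q₂, q₂.map C * Q₁ + q₁.map C * Q₂, ?_, ?_⟩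
    · rw [map_mul]
      exact mul_ne_zero hq₁ hq₂
    · rw [eval₂_add, eval₂_mul, eval₂_mul, hup, hup, ← e₁, ← e₂, map_mul, C_mul]
      ring
  | monomial n c =>
    obtain ⟨p, q, hq, h⟩ := hB c
    refine ⟨q, C (X ^ n) * p.map C, hq, ?_⟩
    rw [eval₂_mul, hup, eval₂_C, ← h, coe_mapRingHom, Polynomial.map_pow, map_X,
      ← C_mul_X_pow_eq_monomial, C_mul]
    ring

/-- `M(w)(t)` is generated by `w` over `M(t)` -/
theorem gen_w (hB : ∀ z : B, ∃ p q : M[X], aeval w q ≠ 0 ∧ z * aeval w q = aeval w p) (z : L') :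
    ∃ p q : M'[X], aeval (algebraMap B[X] L' (C w)) q ≠ 0 ∧
      z * aeval (algebraMap B[X] L' (C w)) q = aeval (algebraMap B[X] L' (C w)) p := by
  obtain ⟨p, q, hq, rfl⟩ := IsFractionRing.div_surjective (A := B[X]) z
  have hq0 : algebraMap B[X] L' q ≠ 0 := by
    rw [Ne, map_eq_zero_iff _ (IsFractionRing.injective B[X] L')]
    exact nonZeroDivisors.ne_zero hq
  obtain ⟨q₁, Q₁, hq₁, e₁⟩ := clear_den hB p
  obtain ⟨q₂, Q₂, hq₂, e₂⟩ := clear_den hB q
  have hC : ∀ q : M[X], algebraMap B[X] L' (C (aeval w q)) =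
      aeval (algebraMap B[X] L' (C w)) ((q.map C : M[X][X]).map (algebraMap M[X] M')) := by
    intro q
    rw [aeval_ev hcomp, eval₂_map, aeval_def, hom_eval₂]
    congr 2
    ext z
    simp
  have hinj := IsFractionRing.injective B[X] L'
  have hne : ∀ u : B, u ≠ 0 → algebraMap B[X] L' (C u) ≠ 0 := by
    intro u hu
    rw [Ne, map_eq_zero_iff _ hinj, C_eq_zero]
    exact hu
  refine ⟨(Q₁.map (algebraMap M[X] M')) * ((q₂.map C : M[X][X]).map (algebraMap M[X] M')),
    (Q₂.map (algebraMap M[X] M')) * ((q₁.map C : M[X][X]).map (algebraMap M[X] M')), ?_, ?_⟩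
  · rw [map_mul, aeval_ev hcomp, ← hC, ← e₂, map_mul]
    exact mul_ne_zero (mul_ne_zero (hne _ hq₂) hq0) (hne _ hq₁)
  · rw [map_mul, map_mul, aeval_ev hcomp Q₁, aeval_ev hcomp Q₂, ← hC q₁, ← hC q₂, ← e₁, ← e₂,
      map_mul, map_mul]
    field_simp

/-- squares -/
theorem sq_w (hw : Transcendental M w)
    (hB : ∀ z : B, ∃ p q : M[X], aeval w q ≠ 0 ∧ z * aeval w q = aeval w p) (x : M') :
    IsSquare (algebraMap M' L' x) ↔ IsSquare x := by
  constructor
  · rintro ⟨y, hy⟩
    obtain ⟨p, q, hq, h⟩ := gen_w hcomp hB y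
    have htr := transc_w hcomp hw
    have hq0 : q ≠ 0 := by
      rintro rfl
      exact hq (map_zero _)
    have h1 : aeval (algebraMap B[X] L' (C w)) (C x * q ^ 2 - p ^ 2) = 0 := by
      rw [map_sub, map_mul, map_pow, map_pow, aeval_C, hy, ← h]
      ring
    have h2 : C x * q ^ 2 - p ^ 2 = 0 := by
      by_contra h0
      exact htr ⟨_, h0, h1⟩
    have h3 : C x * q ^ 2 = p ^ 2 := sub_eq_zero.1 h2
    have h4 := congrArg leadingCoeff h3
    rw [leadingCoeff_mul, leadingCoeff_C, leadingCoeff_pow, leadingCoeff_pow] at h4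
    have h5 : q.leadingCoeff ≠ 0 := leadingCoeff_ne_zero.2 hq0
    refine ⟨p.leadingCoeff / q.leadingCoeff, ?_⟩
    field_simp
    linear_combination h4
  · rintro ⟨y, rfl⟩
    exact ⟨algebraMap M' L' y, map_mul _ _ _⟩

end

section
variable {M : Type} [Field M] [CharZero M] {r g : ℕ} {aM : M[X][X]} {αM : Fin r → M[X]}

/-- the polynomial of the surface over `M(w)` -/
noncomputable def surf (aM : M[X][X]) (αM : Fin r → M[X]) : (RatFunc M)[X][X] :=
  aM.map (mapRingHom (algebraMap M (RatFunc M))) +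
    C (C RatFunc.X) * ∏ j, (X - C ((αM j).map (algebraMap M (RatFunc M))))

/-- **The class group over `M(w)`.** -/
theorem alg_ratfunc (ha : aM.Monic) (hd : aM.natDegree = 2 * g + 1) (hr : r ≤ 2 * g)
    (haα : ∀ j, aM.eval (αM j) ≠ 0) (hα : Function.Injective αM)
    (hs : (1 : (RatFunc M)[X][X]) ∈ Ideal.span {surf aM αM, derivative (surf aM αM),
      dt (surf aM αM)}) :
    ∃ _ : IsDomain (SR (surf aM αM)),
    Module.Free ℤ (Additive (ClassGroup (SR (surf aM αM)))) ∧
    Module.Finite ℤ (Additive (ClassGroup (SR (surf aM αM)))) ∧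
    Module.finrank ℤ (Additive (ClassGroup (SR (surf aM αM)))) =
      Nat.card {j // IsSquare (algebraMap M[X] (FractionRing M[X]) (aM.eval (αM j)))} := by
  let B := RatFunc M
  let M' := FractionRing M[X]
  let L' := FractionRing B[X]
  have hMB : Function.Injective (algebraMap M B) := (algebraMap M B).injective
  have hj0 : Function.Injective (mapRingHom (algebraMap M B)) := by
    intro p q hpq
    exact Polynomial.map_injective _ hMB hpq
  letI : Algebra M' L' := (IsFractionRing.map (K := M') (L := L') hj0).toAlgebra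
  have hcomp : ∀ p : M[X], algebraMap M' L' (algebraMap M[X] M' p) =
      algebraMap B[X] L' (p.map (algebraMap M B)) := fun p => by
    show IsFractionRing.map (K := M') (L := L') hj0 (algebraMap M[X] M' p) = _
    unfold IsFractionRing.map
    rw [IsLocalization.map_eq]
    rfl
  have hBX : CharZero B := charZero_of_injective_algebraMap (algebraMap M B).injective
  have h2 : (2 : B) ≠ 0 := two_ne_zero
  let ω : L' := algebraMap B[X] L' (C (RatFunc.X : B))
  have hω : Transcendental M' ω := transc_w hcomp transc_X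
  have hL := gen_w hcomp (w := (RatFunc.X : B)) ratfunc_hL
  let a' : M'[X] := aM.map (algebraMap M[X] M')
  let α' : Fin r → M' := fun j => algebraMap M[X] M' (αM j)
  have hinj : Function.Injective (algebraMap M[X] M') := IsFractionRing.injective M[X] M'
  have hev : ∀ j, a'.eval (α' j) = algebraMap M[X] M' (aM.eval (αM j)) := fun j =>
    eval_map_apply _ _
  have hM' : CharZero M' := charZero_of_injective_algebraMap hinj
  have hnd : a'.natDegree = 2 * g + 1 := by
    rw [ha.natDegree_map, hd]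
  have hcard : Fintype.card (Fin r) < a'.natDegree := by
    rw [hnd, Fintype.card_fin]
    omega
  have hodd : Odd a'.natDegree := by
    rw [hnd]
    exact ⟨g, rfl⟩
  have hne : ∀ j, a'.eval (α' j) ≠ 0 := by
    intro j h0
    rw [hev, map_eq_zero_iff _ hinj] at h0
    exact haα j h0
  have hd' : (hh α').natDegree < a'.natDegree := by
    rw [hh_natDegree]
    exact hcard
  have hff := odd_ff (L := L') (ω := ω) hodd hd'
  have hF0 : ff a' (hh α') ω ≠ 0 := by
    intro h0
    rw [h0, natDegree_zero] at hff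
    exact (by decide : ¬ Odd 0) hff.1
  have hsep := sep_ff hω (hh_coprime hne) (by rw [hnd]; omega) hF0
  have hr' : (∏ j, (X - C ((αM j).map (algebraMap M B))) : B[X][X]).natDegree = r := by
    rw [natDegree_prod_of_monic _ _ fun i _ => monic_X_sub_C _]
    simp
  have hb : (aM.map (mapRingHom (algebraMap M B))).natDegree = 2 * g + 1 := by
    rw [ha.natDegree_map, hd]
  have hlt : (C (C (RatFunc.X : B)) * ∏ j, (X - C ((αM j).map (algebraMap M B))) :
      B[X][X]).natDegree < (aM.map (mapRingHom (algebraMap M B))).natDegree := by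
    refine (natDegree_C_mul_le _ _).trans_lt ?_
    rw [hr', hb]
    omega
  have hfm : (surf aM αM).Monic := (ha.map _).add_of_left (degree_lt_degree hlt)
  have hfd : (surf aM αM).natDegree = 2 * g + 1 := by
    unfold surf
    rw [natDegree_add_eq_left_of_natDegree_lt hlt, hb]
  have hhom : (algebraMap B[X] L').comp (mapRingHom (algebraMap M B)) =
      (algebraMap M' L').comp (algebraMap M[X] M') := RingHom.ext fun p => (hcomp p).symm
  have hF : ff a' (hh α') ω = (surf aM αM).map (algebraMap B[X] L') := by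
    unfold surf ff
    rw [up_hh, up_def, Polynomial.map_add, Polynomial.map_mul, Polynomial.map_C,
      Polynomial.map_prod, Polynomial.map_map, Polynomial.map_map, hhom]
    congr 2
    refine Finset.prod_congr rfl fun j _ => ?_
    rw [Polynomial.map_sub, map_X, Polynomial.map_C]
    congr 2
    exact hcomp (αM j)
  have h := alg_surf (f := surf aM αM) (β := fun j => (αM j).map (algebraMap M B)) h2 hω hL
    (fun i j hij => hα (hinj hij)) hodd hcard hne hsep.squarefree hfm
    (by rw [hfd]; exact ⟨g, rfl⟩) hF (fun j => (hcomp (αM j)).symm) hs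
  obtain ⟨h3, h4, h5, h6⟩ := h
  refine ⟨h3, h4, h5, h6.trans ?_⟩
  refine Nat.card_congr (Equiv.subtypeEquivRight fun j => ?_)
  rw [sq_w hcomp transc_X ratfunc_hL, hev]

end

end Pool.Agent.Y707.SF
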