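import Pool.Agent.Y707.SF.Ring
import Pool.Agent.Y707.SF.Dt

/-! Invertible ideals of curves on the surface, and their classes on the generic fibre. -/

set_option autoImplicit false
set_option maxHeartbeats 400000

namespace Pool.Agent.Y707.SF

open Polynomial
open scoped nonZeroDivisors

section

/-- the product of two conjugate ideals -/
theorem abs_mul {R : Type} [CommRing R] {U Y c E v x y z : R} (hv : v * 2 = 1)
    (h : (Y - c) * (Y + c) = U * E) (h1 : 1 = x * U + y * c + z * E) :
    Ideal.span {U, Y - c} * Ideal.span {U, Y + c} = Ideal.span {U} := by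
  apply le_antisymm
  · rw [Ideal.span_mul_span', Ideal.span_le]
    rintro w ⟨w1, hw1, w2, hw2, rfl⟩
    simp only [Set.mem_insert_iff, Set.mem_singleton_iff] at hw1 hw2
    simp only [SetLike.mem_coe, Ideal.mem_span_singleton]
    rcases hw1 with rfl | rfl
    · exact dvd_mul_right _ _
    · rcases hw2 with rfl | rfl
      · exact dvd_mul_left _ _
      · exact ⟨E, h⟩
  · rw [Ideal.span_singleton_le_iff_mem]
    have hP1 : U ∈ Ideal.span {U, Y - c} := Ideal.subset_span (Or.inl rfl)
    have hP2 : Y - c ∈ Ideal.span {U, Y - c} := Ideal.subset_span (Or.inr rfl)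
    have hQ1 : U ∈ Ideal.span {U, Y + c} := Ideal.subset_span (Or.inl rfl)
    have hQ2 : Y + c ∈ Ideal.span {U, Y + c} := Ideal.subset_span (Or.inr rfl)
    have e1 := Ideal.mul_mem_mul hP1 hQ1
    have e2 := Ideal.mul_mem_mul hP1 hQ2
    have e3 := Ideal.mul_mem_mul hP2 hQ1
    have e4 := Ideal.mul_mem_mul hP2 hQ2
    have h6 : U = x * (U * U) + (y * v) * (U * (Y + c) - (Y - c) * U) +
        z * ((Y - c) * (Y + c)) := by
      rw [h]
      linear_combination U * h1 - y * U * c * hv
    have h7 := Ideal.add_mem _ (Ideal.add_mem _ (Ideal.mul_mem_left _ x e1)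
      (Ideal.mul_mem_left _ (y * v) (Ideal.sub_mem _ e2 e3))) (Ideal.mul_mem_left _ z e4)
    rwa [← h6] at h7

variable {B : Type} [CommRing B]

/-- the ideal of a curve -/
noncomputable def pi2 (f : B[X][X]) (β c : B[X]) : Ideal (SR f) :=
  Ideal.span {pq (X - C β), yq f - pq (C c)}

/-- **The curves are Cartier divisors.** -/
theorem pi2_mul {v : B} (hv : v * 2 = 1) {f : B[X][X]} {β c : B[X]} (hc : f.eval β = c ^ 2)
    (hs : (1 : B[X][X]) ∈ Ideal.span {f, derivative f, dt f}) :
    pi2 f β c * pi2 f β (-c) = Ideal.span {pq (X - C β)} := by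
  obtain ⟨e, he, x, y, z, h1⟩ := smooth_pt hc hs
  have h8 : (yq f - pq (C c)) * (yq f + pq (C c)) = pq (X - C β) * pq e := by
    have h9 : (pq (X - C β) : SR f) * pq e = pq f - pq (C c) ^ 2 := by
      rw [← map_mul, ← he, map_sub, map_pow]
    rw [h9, ← yq_sq]
    ring
  have h7 : (1 : SR f) = pq x * pq (X - C β) + pq y * pq (C c) + pq z * pq e := by
    rw [← map_mul, ← map_mul, ← map_mul, ← map_add, ← map_add, ← h1, map_one]
  have hv' : (pq (C (C v)) : SR f) * 2 = 1 := by
    have h5 : (2 : SR f) = pq (C (C (2 : B))) := by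
      rw [map_ofNat, map_ofNat, map_ofNat]
    rw [h5, ← map_mul, ← C_mul, ← C_mul, hv, C_1, C_1, map_one]
  have h3 : yq f - pq (C (-c)) = yq f + pq (C c) := by
    rw [C_neg, map_neg, sub_neg_eq_add]
  unfold pi2
  rw [h3]
  exact abs_mul hv' h8 h7

end

section
variable {A D : Type} [CommRing A] [IsDomain A] [CommRing D] [IsDedekindDomain D] [Algebra A D]
  [Module.IsTorsionFree A D]

open FractionalIdeal in
/-- classes in the image -/
theorem mem_range {P Q : Ideal A} {a : A} (ha : a ≠ 0) (h : P * Q = Ideal.span {a})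
    (h0 : P.map (algebraMap A D) ∈ (Ideal D)⁰) :
    ClassGroup.mk0 ⟨P.map (algebraMap A D), h0⟩ ∈ (ClassGroup.extendedHom A D).range := by
  classical
  have hia : algebraMap A (FractionRing A) a ≠ 0 := by
    intro h1
    exact ha ((IsFractionRing.injective A (FractionRing A)) (by rw [h1, map_zero]))
  have h1 : (P : FractionalIdeal A⁰ (FractionRing A)) *
      (spanSingleton A⁰ (algebraMap A (FractionRing A) a)⁻¹ * Q) = 1 := by
    have h2 : (P : FractionalIdeal A⁰ (FractionRing A)) * Q =
        spanSingleton A⁰ (algebraMap A (FractionRing A) a) := by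
      rw [← coeIdeal_mul, h, coeIdeal_span_singleton]
    calc _ = (P : FractionalIdeal A⁰ (FractionRing A)) * Q *
          spanSingleton A⁰ (algebraMap A (FractionRing A) a)⁻¹ := by ring
      _ = 1 := by
        rw [h2, spanSingleton_mul_spanSingleton, mul_inv_cancel₀ hia, spanSingleton_one]
  let u : (FractionalIdeal A⁰ (FractionRing A))ˣ := Units.mkOfMulEqOne _ _ h1
  refine ⟨ClassGroup.mk (FractionRing A) u, ?_⟩
  rw [ClassGroup.extendedHom_mk, ← ClassGroup.mk_mk0 (FractionRing D)]
  congr 1
  ext1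
  have h3 : ((Units.map (FractionalIdeal.extendedHom (FractionRing D) D).toMonoidHom u :
      (FractionalIdeal D⁰ (FractionRing D))ˣ) : FractionalIdeal D⁰ (FractionRing D)) =
      ((P.map (algebraMap A D) : Ideal D) : FractionalIdeal D⁰ (FractionRing D)) := by
    rw [← FractionalIdeal.extendedHom_coeIdeal_eq_map (K := FractionRing A)
      (L := FractionRing D) (B := D)]
    rfl
  rw [h3]
  rfl

end

end Pool.Agent.Y707.SF
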