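import Pool.Agent.TH943.HJ.Ring
import Pool.Agent.Y707.SF.Cl

/-! The coordinate ring of `Y ^ 2 = f(X)` over a domain. -/

set_option autoImplicit false
set_option maxHeartbeats 400000

namespace Pool.Agent.Y707.SF

open Polynomial
open scoped nonZeroDivisors

section
variable {S : Type} [CommRing S]

/-- The ring `S[X, Y] / (Y ^ 2 - f(X))`. -/
abbrev SR (f : S[X]) : Type := AdjoinRoot (X ^ 2 - C f : S[X][X])

/-- polynomials as elements -/
noncomputable def pq {f : S[X]} : S[X] →+* SR f := AdjoinRoot.of (X ^ 2 - C f : S[X][X])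

/-- the element `Y` -/
noncomputable def yq (f : S[X]) : SR f := AdjoinRoot.root (X ^ 2 - C f : S[X][X])

/-- the element `p + q Y` -/
noncomputable def eq' {f : S[X]} (p q : S[X]) : SR f := pq p + pq q * yq f

theorem yq_sq (f : S[X]) : yq f ^ 2 = pq f := by
  have h : aeval (AdjoinRoot.root (X ^ 2 - C f : S[X][X])) (X ^ 2 - C f : S[X][X]) = 0 := by
    rw [AdjoinRoot.aeval_eq, AdjoinRoot.mk_self]
  rw [map_sub, map_pow, aeval_X, aeval_C, sub_eq_zero] at h
  exact h

variable [Nontrivial S]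

theorem exists_eq' {f : S[X]} (z : SR f) : ∃ p q, z = eq' p q := by
  obtain ⟨g, rfl⟩ := AdjoinRoot.mk_surjective z
  have h1 : AdjoinRoot.mk (X ^ 2 - C f : S[X][X]) g =
      AdjoinRoot.mk (X ^ 2 - C f : S[X][X]) (g %ₘ (X ^ 2 - C f)) := by
    rw [AdjoinRoot.mk_eq_mk]
    have h := modByMonic_add_div g (X ^ 2 - C f : S[X][X])
    exact ⟨g /ₘ (X ^ 2 - C f), by linear_combination -h⟩
  have h2 : (g %ₘ (X ^ 2 - C f : S[X][X])).degree < 2 := by
    have := degree_modByMonic_lt g (monic_X_pow_sub_C f two_ne_zero : (X ^ 2 - C f : S[X][X]).Monic)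
    rwa [degree_X_pow_sub_C two_pos] at this
  have h3 := as_sum_range_C_mul_X_pow' (p := g %ₘ (X ^ 2 - C f : S[X][X])) (n := 2) (by
    rcases eq_or_ne (g %ₘ (X ^ 2 - C f : S[X][X])) 0 with h0 | h0
    · rw [h0, natDegree_zero]; norm_num
    · exact (natDegree_lt_iff_degree_lt h0).2 h2)
  refine ⟨(g %ₘ (X ^ 2 - C f : S[X][X])).coeff 0, (g %ₘ (X ^ 2 - C f : S[X][X])).coeff 1, ?_⟩
  rw [h1]
  conv_lhs => rw [h3]
  rw [Finset.sum_range_succ, Finset.sum_range_one, pow_zero, mul_one, pow_one, map_add, map_mul,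
    AdjoinRoot.mk_C, AdjoinRoot.mk_C, AdjoinRoot.mk_X]
  rfl

theorem eq'_mk {f : S[X]} (p q : S[X]) :
    (eq' p q : SR f) = AdjoinRoot.mk (X ^ 2 - C f : S[X][X]) (C p + C q * X) := by
  rw [map_add, map_mul, AdjoinRoot.mk_C, AdjoinRoot.mk_C, AdjoinRoot.mk_X]
  rfl

theorem eq'_zero {f : S[X]} {p q : S[X]} (h : (eq' p q : SR f) = 0) : p = 0 ∧ q = 0 := by
  have hm : (X ^ 2 - C f : S[X][X]).Monic := monic_X_pow_sub_C f two_ne_zero
  rw [eq'_mk, AdjoinRoot.mk_eq_zero] at h
  have h1 : (C p + C q * X : S[X][X]).degree < (X ^ 2 - C f : S[X][X]).degree := by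
    rw [degree_X_pow_sub_C two_pos]
    refine (degree_add_le _ _).trans_lt (max_lt ?_ ?_)
    · exact degree_C_le.trans_lt (by norm_num)
    · refine (degree_C_mul_X_le q).trans_lt (by norm_num)
  have h2 : (C p + C q * X : S[X][X]) = 0 := by
    by_contra h0
    exact hm.not_dvd_of_degree_lt h0 h1 h
  constructor
  · have := congrArg (fun r => coeff r 0) h2
    simpa using this
  · have := congrArg (fun r => coeff r 1) h2
    simpa using this

theorem eq'_sub {f : S[X]} (p q p' q' : S[X]) :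
    (eq' p q : SR f) - eq' p' q' = eq' (p - p') (q - q') := by
  unfold eq'
  rw [map_sub, map_sub]
  ring

theorem eq'_inj {f : S[X]} {p q p' q' : S[X]} (h : (eq' p q : SR f) = eq' p' q') :
    p = p' ∧ q = q' := by
  rw [← sub_eq_zero, eq'_sub] at h
  obtain ⟨h1, h2⟩ := eq'_zero h
  exact ⟨sub_eq_zero.1 h1, sub_eq_zero.1 h2⟩

theorem eq'_left {f : S[X]} (p : S[X]) : (eq' p 0 : SR f) = pq p := by
  unfold eq'
  rw [map_zero, zero_mul, add_zero]

theorem pq_inj {f : S[X]} : Function.Injective (pq : S[X] →+* SR f) := by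
  intro p q h
  rw [← eq'_left, ← eq'_left] at h
  exact (eq'_inj h).1

end

section
variable {S T : Type} [CommRing S] [CommRing T] (θ : S →+* T) {f : S[X]} {F : T[X]}
  (hF : F = f.map θ)

/-- base change -/
noncomputable def red : SR f →+* SR F :=
  AdjoinRoot.map (mapRingHom θ) _ _ (by
    rw [hF, Polynomial.map_sub, Polynomial.map_pow, map_X, Polynomial.map_C]
    exact dvd_rfl)

theorem red_pq (p : S[X]) : red θ hF (pq p) = pq (p.map θ) := by
  unfold red pq
  rw [AdjoinRoot.map_of]
  rfl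

theorem red_yq : red θ hF (yq f) = yq F := AdjoinRoot.map_root _ _ _ _

theorem red_eq' (p q : S[X]) : red θ hF (eq' p q) = eq' (p.map θ) (q.map θ) := by
  unfold eq'
  rw [map_add, map_mul, red_pq, red_pq, red_yq]

variable [Nontrivial S] [Nontrivial T]

theorem red_inj (hθ : Function.Injective θ) : Function.Injective (red θ hF) := by
  rw [injective_iff_map_eq_zero]
  intro z hz
  obtain ⟨p, q, rfl⟩ := exists_eq' z
  rw [red_eq'] at hz
  obtain ⟨h1, h2⟩ := eq'_zero hz
  rw [Polynomial.map_eq_zero_iff hθ] at h1 h2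
  rw [h1, h2, eq'_left, map_zero]

end

section
variable {S : Type} [CommRing S] [IsDomain S] {f : S[X]}

theorem isDomain_SR (hf : f.Monic) (hodd : Odd f.natDegree) : IsDomain (SR f) := by
  have h1 : (f.map (algebraMap S (FractionRing S))).natDegree = f.natDegree :=
    hf.natDegree_map _
  have h2 : IsDomain (SR (f.map (algebraMap S (FractionRing S)))) :=
    Pool.Agent.TH943.HJ.isDomain (by rw [h1]; exact hodd)
  exact (red_inj (algebraMap S (FractionRing S)) rfl (IsFractionRing.injective S _)).isDomain _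

/-- **Primes of the base stay prime.** -/
theorem prime_SR (hf : f.Monic) (hodd : Odd f.natDegree) {p : S} (hp : Prime p) :
    Prime (pq (C p) : SR f) := by
  have hI : (Ideal.span {p} : Ideal S).IsPrime := (Ideal.span_singleton_prime hp.ne_zero).2 hp
  have hD : IsDomain (S ⧸ Ideal.span {p}) := Ideal.Quotient.isDomain _
  let κ := FractionRing (S ⧸ Ideal.span {p})
  let θ : S →+* κ := (algebraMap (S ⧸ Ideal.span {p}) κ).comp (Ideal.Quotient.mk (Ideal.span {p}))
  have hθ : ∀ c : S, θ c = 0 ↔ p ∣ c := by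
    intro c
    have h1 : θ c = algebraMap (S ⧸ Ideal.span {p}) κ (Ideal.Quotient.mk (Ideal.span {p}) c) := rfl
    rw [h1, map_eq_zero_iff _ (IsFractionRing.injective (S ⧸ Ideal.span {p}) κ),
      Ideal.Quotient.eq_zero_iff_mem, Ideal.mem_span_singleton]
  have hdeg : (f.map θ).natDegree = f.natDegree := hf.natDegree_map _
  have hdom : IsDomain (SR (f.map θ)) :=
    Pool.Agent.TH943.HJ.isDomain (by rw [hdeg]; exact hodd)
  have hpz : red θ rfl (pq (C p) : SR f) = 0 := by
    rw [red_pq, Polynomial.map_C, (hθ p).2 dvd_rfl, C_0, map_zero]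
  have hdvd : ∀ z : SR f, red θ rfl z = 0 → (pq (C p) : SR f) ∣ z := by
    intro z hz
    obtain ⟨u, v, rfl⟩ := exists_eq' z
    rw [red_eq'] at hz
    obtain ⟨h1, h2⟩ := eq'_zero hz
    have h3 : ∀ w : S[X], w.map θ = 0 → C p ∣ w := by
      intro w hw
      rw [C_dvd_iff_dvd_coeff]
      intro i
      rw [← hθ, ← coeff_map, hw, coeff_zero]
    unfold eq'
    exact dvd_add (map_dvd pq (h3 u h1)) (Dvd.dvd.mul_right (map_dvd pq (h3 v h2)) _)
  refine ⟨?_, ?_, ?_⟩
  · intro h0
    have h1 := pq_inj (h0.trans (map_zero pq).symm)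
    rw [C_eq_zero] at h1
    exact hp.ne_zero h1
  · intro hu
    have h1 := hu.map (red θ (F := f.map θ) rfl)
    rw [hpz] at h1
    exact not_isUnit_zero h1
  · intro a b hab
    have h1 : red θ rfl (a * b) = 0 := by
      obtain ⟨c, hc⟩ := hab
      rw [hc, map_mul, hpz, zero_mul]
    rw [map_mul] at h1
    rcases mul_eq_zero.1 h1 with h | h
    · exact Or.inl (hdvd a h)
    · exact Or.inr (hdvd b h)

end

section
variable {S : Type} [CommRing S] [IsDomain S] {L : Type} [Field L] [Algebra S L]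
  [IsFractionRing S L] {f : S[X]} {F : L[X]} (hF : F = f.map (algebraMap S L))

/-- the constants of the base -/
noncomputable def Sm (f : S[X]) : Submonoid (SR f) := S⁰.map ((pq (f := f)).comp C)

/-- **The generic fibre is a localization.** -/
theorem isLocalization_SR :
    letI : Algebra (SR f) (SR F) := (red (algebraMap S L) hF).toAlgebra
    IsLocalization (Sm f) (SR F) := by
  letI : Algebra (SR f) (SR F) := (red (algebraMap S L) hF).toAlgebra
  have hal : ∀ z : SR f, algebraMap (SR f) (SR F) z = red (algebraMap S L) hF z := fun z => rfl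
  refine ⟨⟨?_, ?_, ?_⟩⟩
  · rintro ⟨_, s, hs, rfl⟩
    show IsUnit (red (algebraMap S L) hF (pq (C s)))
    rw [red_pq, Polynomial.map_C]
    apply IsUnit.map
    apply IsUnit.map
    rw [isUnit_iff_ne_zero]
    intro h0
    exact nonZeroDivisors.ne_zero hs
      ((map_eq_zero_iff _ (IsFractionRing.injective S L)).1 h0)
  · intro z
    obtain ⟨p, q, rfl⟩ := exists_eq' z
    obtain ⟨b, hb⟩ := IsLocalization.integerNormalization_map_to_map S⁰ p
    obtain ⟨c, hc⟩ := IsLocalization.integerNormalization_map_to_map S⁰ q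
    refine ⟨(eq' (C (c : S) * IsLocalization.integerNormalization S⁰ p)
      (C (b : S) * IsLocalization.integerNormalization S⁰ q),
      ⟨_, (b * c : S), (b * c).2, rfl⟩), ?_⟩
    show eq' p q * red (algebraMap S L) hF (pq (C ((b : S) * c))) =
      red (algebraMap S L) hF (eq' _ _)
    rw [red_pq, red_eq', Polynomial.map_mul, Polynomial.map_mul, hb, hc, Polynomial.map_C,
      Polynomial.map_C, Polynomial.map_C, map_mul,
      ← IsScalarTower.algebraMap_smul L (b : S) p, ← IsScalarTower.algebraMap_smul L (c : S) q,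
      smul_eq_C_mul, smul_eq_C_mul]
    unfold eq'
    simp only [map_mul]
    ring
  · intro x y hxy
    rw [hal, hal] at hxy
    exact ⟨1, by rw [red_inj _ hF (IsFractionRing.injective S L) hxy]⟩

end

end Pool.Agent.Y707.SF
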