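import Pool.Agent.Y707.SF.Defs
import Pool.Agent.Y707.SF.Cnt

/-! The traces on `H²` in terms of character sums. -/

set_option autoImplicit false
set_option maxHeartbeats 400000

namespace Pool.Agent.Y707.SF

open Polynomial Finset NumberField
open Pool.Agent.Y707.PC

section
variable {κ : Type} [Field κ] [Fintype κ]

open Classical in
theorem card_sq (h2 : ringChar κ ≠ 2) (c : κ) :
    (∑ y : κ, if y ^ 2 = c then (1 : ℝ) else 0) = 1 + ch c := by
  have h3 := quadraticChar_card_sqrts h2 c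
  rw [sum_boole]
  unfold ch
  have h4 : {x : κ | x ^ 2 = c}.toFinset = univ.filter fun x => x ^ 2 = c := by
    ext x
    simp
  rw [h4] at h3
  have h5 : (((univ.filter fun x : κ => x ^ 2 = c).card : ℤ) : ℝ) = (quadraticChar κ c + 1 : ℤ) := by
    rw [h3]
  push_cast at h5
  linarith

theorem card_curve (h2 : ringChar κ ≠ 2) {ι : Type} [Fintype ι] (c : ι → κ) :
    (Nat.card {P : ι × κ // P.2 ^ 2 = c P.1} : ℝ) = Fintype.card ι + ∑ i, ch (c i) := by
  classical
  rw [Nat.card_eq_fintype_card, Fintype.card_subtype]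
  have h : (((univ.filter fun P : ι × κ => P.2 ^ 2 = c P.1).card : ℕ) : ℝ) =
      ∑ P : ι × κ, if P.2 ^ 2 = c P.1 then (1 : ℝ) else 0 := by
    rw [sum_boole]
  rw [h, Fintype.sum_prod_type]
  simp only [card_sq h2]
  rw [sum_add_distrib, sum_const, card_univ, nsmul_eq_mul, mul_one]

theorem traceTwo_eq (h2 : ringChar κ ≠ 2) (g n : ℕ) (f : κ[X][X]) :
    traceTwo g n f = ∑ t : κ, ∑ x : κ, ch (f.evalEval t x) +
      ∑ x : κ, ch ((atInfinity g n f).eval x) + 2 * Fintype.card κ := by
  have h1 : (Nat.card {P : κ × κ × κ // P.2.2 ^ 2 = f.evalEval P.1 P.2.1} : ℝ) =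
      (Fintype.card κ : ℝ) ^ 2 + ∑ t : κ, ∑ x : κ, ch (f.evalEval t x) := by
    have h3 : Nat.card {P : κ × κ × κ // P.2.2 ^ 2 = f.evalEval P.1 P.2.1} =
        Nat.card {P : (κ × κ) × κ // P.2 ^ 2 = f.evalEval P.1.1 P.1.2} :=
      Nat.card_congr ((Equiv.prodAssoc κ κ κ).symm.subtypeEquiv fun P => Iff.rfl)
    rw [h3, card_curve h2 (fun P : κ × κ => f.evalEval P.1 P.2), Fintype.card_prod,
      Fintype.sum_prod_type]
    push_cast
    ring
  unfold traceTwo
  rw [h1, card_curve h2 (fun x => (atInfinity g n f).eval x), Nat.card_eq_fintype_card]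
  ring

/-- the Weil bound for monic polynomials of odd degree -/
theorem weil_odd (h2 : ringChar κ ≠ 2) {g : ℕ} {p : κ[X]} (hp : p.Monic)
    (hd : p.natDegree = 2 * g + 1) : |∑ x : κ, ch (p.eval x)| ≤ 2 * g * Real.sqrt (Fintype.card κ) := by
  classical
  have h3 := Pool.Agent.H341R2.Sharp.weil_sharp_monic h2 hp (by omega) (by
    intro c f hc
    have hc0 : c ≠ 0 := by
      rintro rfl
      rw [Polynomial.C_0, zero_mul] at hc
      rw [hc, Polynomial.natDegree_zero] at hd
      omega
    rw [hc, Polynomial.natDegree_C_mul hc0, Polynomial.natDegree_pow] at hd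
    omega)
  rw [hd] at h3
  push_cast at h3
  rw [add_sub_cancel_right] at h3
  exact h3

end

section
variable {B : Type} [CommRing B] [Nontrivial B] {g n : ℕ} {f : B[X][X]}

theorem atInfinity_coeff (i : ℕ) (hi : i < 2 * g + 2) :
    (atInfinity g n f).coeff i = (f.coeff i).coeff (2 * n * (2 * g + 1 - i)) := by
  unfold atInfinity
  rw [finset_sum_coeff]
  simp only [coeff_monomial]
  rw [Finset.sum_ite_eq' (Finset.range (2 * g + 2)) i, if_pos (Finset.mem_range.2 hi)]

theorem atInfinity_coeff' (i : ℕ) (hi : ¬ i < 2 * g + 2) : (atInfinity g n f).coeff i = 0 := by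
  unfold atInfinity
  rw [finset_sum_coeff]
  simp only [coeff_monomial]
  rw [Finset.sum_ite_eq' (Finset.range (2 * g + 2)) i, if_neg (fun h => hi (Finset.mem_range.1 h))]

theorem atInfinity_monic (hf : f.Monic) (hd : f.natDegree = 2 * g + 1) :
    (atInfinity g n f).Monic ∧ (atInfinity g n f).natDegree = 2 * g + 1 := by
  have h1 : (atInfinity g n f).coeff (2 * g + 1) = 1 := by
    rw [atInfinity_coeff _ (by omega)]
    have h2 : f.coeff (2 * g + 1) = 1 := by
      rw [← hd]
      exact hf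
    rw [h2, Nat.sub_self, mul_zero, coeff_one_zero]
  have h3 : (atInfinity g n f).natDegree ≤ 2 * g + 1 := by
    rw [natDegree_le_iff_coeff_eq_zero]
    intro i hi
    exact atInfinity_coeff' i (by omega)
  have h4 : (atInfinity g n f).natDegree = 2 * g + 1 := by
    refine le_antisymm h3 (le_natDegree_of_ne_zero ?_)
    rw [h1]
    exact one_ne_zero
  refine ⟨?_, h4⟩
  rw [Monic, leadingCoeff, h4, h1]

theorem atInfinity_map {D : Type} [CommRing D] (θ : B →+* D) :
    atInfinity g n (f.map (mapRingHom θ)) = (atInfinity g n f).map θ := by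
  unfold atInfinity
  rw [Polynomial.map_sum]
  refine Finset.sum_congr rfl fun i _ => ?_
  rw [Polynomial.map_monomial, coeff_map, coe_mapRingHom, coeff_map]

end

section
variable {K : Type} [Field K] [NumberField K] {k l r : ℕ}
  (a : (MvPolynomial (Fin k) (𝓞 K))[X][X]) (α : Fin r → (MvPolynomial (Fin k) (𝓞 K))[X])

/-- the data with one more variable -/
noncomputable def a1 : (MvPolynomial (Fin (k + 1)) (𝓞 K))[X] :=
  a.map (sg (𝓞 K) k : (MvPolynomial (Fin k) (𝓞 K))[X] →+* MvPolynomial (Fin (k + 1)) (𝓞 K))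

/-- the base points with one more variable -/
noncomputable def α1 (j : Fin r) : MvPolynomial (Fin (k + 1)) (𝓞 K) := sg (𝓞 K) k (α j)

/-- the base with one more variable -/
noncomputable def G1 (G : Fin l → MvPolynomial (Fin k) (𝓞 K)) (i : Fin l) :
    MvPolynomial (Fin (k + 1)) (𝓞 K) := sg (𝓞 K) k (C (G i))

variable {a α} {κ : Type} [Field κ]

/-- the slices of a member -/
theorem slice (φ : 𝓞 K →+* κ) (x : Fin k → κ) (t w : κ) :
    (member a α φ x w).map (evalRingHom t) =
      pen (a1 a) (α1 α) (MvPolynomial.eval₂Hom φ (Fin.cons t x : Fin (k + 1) → κ)) w := by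
  have h : (evalRingHom t).comp (mapRingHom (MvPolynomial.eval₂Hom φ x)) =
      (MvPolynomial.eval₂Hom φ (Fin.cons t x : Fin (k + 1) → κ)).comp
        (sg (𝓞 K) k : (MvPolynomial (Fin k) (𝓞 K))[X] →+* MvPolynomial (Fin (k + 1)) (𝓞 K)) :=
    RingHom.ext fun P => (sg_eval φ t x P).symm
  unfold member
  rw [pen_map, h]
  unfold pen a1 α1
  rw [Polynomial.map_map, coe_evalRingHom, eval_C]
  rfl

theorem slice_eval (φ : 𝓞 K →+* κ) (x : Fin k → κ) (t w z : κ) :
    (member a α φ x w).evalEval t z =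
      (pen (a1 a) (α1 α) (MvPolynomial.eval₂Hom φ (Fin.cons t x : Fin (k + 1) → κ)) w).eval z := by
  rw [← slice, map_evalRingHom_eval]

theorem slice_sum [Fintype κ] (φ : 𝓞 K →+* κ) (x : Fin k → κ) (t w : κ) :
    ∑ z : κ, ch ((member a α φ x w).evalEval t z) =
      msum (a1 a) (α1 α) (MvPolynomial.eval₂Hom φ (Fin.cons t x : Fin (k + 1) → κ)) w := by
  unfold msum
  exact sum_congr rfl fun z _ => by rw [slice_eval]

end

end Pool.Agent.Y707.SF
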