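import Pool.Agent.Y707.SF.Tr

/-! Smoothness of the members. -/

set_option autoImplicit false
set_option maxHeartbeats 400000

namespace Pool.Agent.Y707.SF

open Polynomial Finset NumberField
open Pool.Agent.Y707.PC

section
variable {B D : Type} [CommRing B] [CommRing D] {n N N' : ℕ} {f h : B[X][X]}

theorem HasWeight.map (hf : HasWeight n N f) (θ : B →+* D) :
    HasWeight n N (f.map (mapRingHom θ)) := by
  refine ⟨natDegree_map_le.trans hf.1, fun i hi => ?_⟩
  rw [coeff_map, coe_mapRingHom]
  exact (Nat.add_le_add_right natDegree_map_le _).trans (hf.2 i hi)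

theorem HasWeight.add (hf : HasWeight n N f) (hh : HasWeight n N h) : HasWeight n N (f + h) := by
  refine ⟨(natDegree_add_le _ _).trans (max_le hf.1 hh.1), fun i hi => ?_⟩
  rw [coeff_add]
  have h1 := hf.2 i hi
  have h2 := hh.2 i hi
  have h3 := natDegree_add_le (f.coeff i) (h.coeff i)
  rcases le_total (f.coeff i).natDegree (h.coeff i).natDegree with h4 | h4
  · rw [max_eq_right h4] at h3
    omega
  · rw [max_eq_left h4] at h3
    omega

theorem HasWeight.mono (hf : HasWeight n N f) (hN : N ≤ N') : HasWeight n N' f := by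
  refine ⟨hf.1.trans hN, fun i hi => ?_⟩
  by_cases h1 : i ≤ N
  · exact (hf.2 i h1).trans (Nat.mul_le_mul_left _ hN)
  · rw [coeff_eq_zero_of_natDegree_lt (hf.1.trans_lt (not_le.1 h1)), natDegree_zero, zero_add]
    exact Nat.mul_le_mul_left _ hi

theorem HasWeight.mul (hf : HasWeight n N f) (hh : HasWeight n N' h) :
    HasWeight n (N + N') (f * h) := by
  refine ⟨natDegree_mul_le.trans (Nat.add_le_add hf.1 hh.1), fun i hi => ?_⟩
  rw [coeff_mul]
  have key : (∑ x ∈ antidiagonal i, f.coeff x.1 * h.coeff x.2).natDegree ≤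
      2 * n * (N + N') - 2 * n * i := by
    refine natDegree_sum_le_of_forall_le _ _ fun x hx => ?_
    rw [HasAntidiagonal.mem_antidiagonal] at hx
    by_cases h0 : f.coeff x.1 = 0 ∨ h.coeff x.2 = 0
    · have h1 : f.coeff x.1 * h.coeff x.2 = 0 := by
        rcases h0 with h | h
        · rw [h, zero_mul]
        · rw [h, mul_zero]
      rw [h1, natDegree_zero]
      exact Nat.zero_le _
    · push Not at h0
      have h1 : x.1 ≤ N := (le_natDegree_of_ne_zero h0.1).trans hf.1
      have h2 : x.2 ≤ N' := (le_natDegree_of_ne_zero h0.2).trans hh.1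
      have h3 := hf.2 x.1 h1
      have h4 := hh.2 x.2 h2
      have h5 := natDegree_mul_le (p := f.coeff x.1) (q := h.coeff x.2)
      have h6 : 2 * n * i = 2 * n * x.1 + 2 * n * x.2 := by rw [← hx]; ring
      have h7 : 2 * n * (N + N') = 2 * n * N + 2 * n * N' := by ring
      omega
  have h8 : 2 * n * i ≤ 2 * n * (N + N') := Nat.mul_le_mul_left _ hi
  omega

theorem hasWeight_CC (w : B) : HasWeight n 0 (C (C w) : B[X][X]) := by
  refine ⟨(natDegree_C _).le, fun i hi => ?_⟩
  obtain rfl : i = 0 := Nat.le_zero.1 hi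
  rw [coeff_C_zero, natDegree_C]
  omega

theorem hasWeight_lin {β : B[X]} (hβ : β.natDegree ≤ 2 * n) : HasWeight n 1 (X - C β : B[X][X]) := by
  refine ⟨natDegree_X_sub_C_le _, fun i hi => ?_⟩
  rcases Nat.le_one_iff_eq_zero_or_eq_one.1 hi with rfl | rfl
  · rw [coeff_sub, coeff_X_zero, coeff_C_zero, zero_sub, natDegree_neg]
    omega
  · rw [coeff_sub, coeff_X_one, coeff_C, if_neg one_ne_zero, sub_zero, natDegree_one]
    omega

theorem hasWeight_prod {r : ℕ} (s : Finset (Fin r)) {β : Fin r → B[X]}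
    (hβ : ∀ j, (β j).natDegree ≤ 2 * n) : HasWeight n s.card (∏ j ∈ s, (X - C (β j)) : B[X][X]) := by
  classical
  induction s using Finset.induction_on with
  | empty =>
    rw [prod_empty, card_empty, ← C_1, ← C_1]
    exact hasWeight_CC 1
  | insert i s hi ih =>
    rw [prod_insert hi, card_insert_of_notMem hi, add_comm]
    exact (hasWeight_lin (hβ i)).mul ih

end

section
variable {K : Type} [Field K] [NumberField K] {k l r g n : ℕ}
  {G : Fin l → MvPolynomial (Fin k) (𝓞 K)} {a : (MvPolynomial (Fin k) (𝓞 K))[X][X]}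
  {α : Fin r → (MvPolynomial (Fin k) (𝓞 K))[X]}

theorem pen_weight {B : Type} [CommRing B] (h : IsSurfacePencil g n G a α)
    (ψ : MvPolynomial (Fin k) (𝓞 K) →+* B) (w : B) :
    HasWeight n (2 * g + 1) (pen a α (mapRingHom ψ) (C w)) := by
  unfold pen
  refine (h.weight.map ψ).add ?_
  have h1 := (hasWeight_CC (n := n) w).mul (hasWeight_prod (univ : Finset (Fin r))
    (β := fun j => (α j).map ψ) fun j => natDegree_map_le.trans (h.weights j))
  refine h1.mono ?_
  rw [card_univ, Fintype.card_fin, zero_add]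
  have := h.number
  omega

theorem family_map {B : Type} [CommRing B] (Θ : (MvPolynomial (Fin k) (𝓞 K))[X] →+* B) :
    (family a α).map (mapRingHom Θ) = pen a α (mapRingHom (Θ.comp C)) (C (Θ X)) := by
  have h := pen_map (a := a) (α := α) (B := (MvPolynomial (Fin k) (𝓞 K))[X][X]) (w := C X)
    (ψ := mapRingHom (C : MvPolynomial (Fin k) (𝓞 K) →+* (MvPolynomial (Fin k) (𝓞 K))[X]))
    (mapRingHom Θ)
  have e1 : (mapRingHom Θ).comp
      (mapRingHom (C : MvPolynomial (Fin k) (𝓞 K) →+* (MvPolynomial (Fin k) (𝓞 K))[X])) =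
      mapRingHom (Θ.comp C) := RingHom.ext fun p => by
    rw [RingHom.comp_apply, coe_mapRingHom, coe_mapRingHom, coe_mapRingHom, Polynomial.map_map]
  have e2 : mapRingHom Θ (C X) = C (Θ X) := by
    rw [coe_mapRingHom, Polynomial.map_C]
  rw [e1, e2] at h
  exact h

/-- **Members at which `D` does not vanish are smooth.** -/
theorem smooth_member {B : Type} [Field B] (h2 : (2 : B) ≠ 0) (h : IsSurfacePencil g n G a α)
    {D : (MvPolynomial (Fin k) (𝓞 K))[X]}
    (hD1 : C (C D) ∈ Ideal.span {family a α, derivative (family a α), dt (family a α)})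
    (hD2 : C D ∈ Ideal.span {atInfinity g n (family a α), derivative (atInfinity g n (family a α))})
    (ψ : MvPolynomial (Fin k) (𝓞 K) →+* B) (w : B) (hD : (D.map ψ).eval w ≠ 0) :
    IsSmoothSurface g n (pen a α (mapRingHom ψ) (C w)) := by
  set Θ : (MvPolynomial (Fin k) (𝓞 K))[X] →+* B := eval₂RingHom ψ w with hΘ
  have hΘC : Θ.comp C = ψ := RingHom.ext fun p => by
    rw [hΘ, RingHom.comp_apply, coe_eval₂RingHom, eval₂_C]
  have hΘX : Θ X = w := by rw [hΘ, coe_eval₂RingHom, eval₂_X]
  have hfam : (family a α).map (mapRingHom Θ) = pen a α (mapRingHom ψ) (C w) := by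
    rw [family_map, hΘC, hΘX]
  have hΘD : IsUnit (Θ D) := by
    rw [isUnit_iff_ne_zero, hΘ, coe_eval₂RingHom, ← eval_map]
    exact hD
  have hdeg : (∏ j, (X - C (mapRingHom ψ (α j))) : B[X][X]).natDegree = r := by
    rw [natDegree_prod_of_monic _ _ fun i _ => monic_X_sub_C _]
    simp
  have hlt : (C (C w) * ∏ j, (X - C (mapRingHom ψ (α j))) : B[X][X]).natDegree <
      (a.map (mapRingHom ψ)).natDegree := by
    refine (natDegree_C_mul_le _ _).trans_lt ?_
    have := h.number
    rw [hdeg, h.monic.natDegree_map, h.degree]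
    omega
  refine ⟨isUnit_iff_ne_zero.2 h2, (h.monic.map _).add_of_left (degree_lt_degree hlt), ?_,
    pen_weight h ψ w, ?_, ?_⟩
  · unfold pen
    rw [natDegree_add_eq_left_of_natDegree_lt hlt, h.monic.natDegree_map, h.degree]
  · have h1 := Ideal.mem_map_of_mem (mapRingHom (mapRingHom Θ)) hD1
    rw [Ideal.map_span, Set.image_insert_eq, Set.image_pair] at h1
    simp only [coe_mapRingHom, Polynomial.map_C] at h1
    rw [← dt_map, ← derivative_map, hfam] at h1
    have h3 : IsUnit (C (C (Θ D)) : B[X][X]) := (hΘD.map C).map C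
    exact Ideal.eq_top_of_isUnit_mem _ h1 h3 ▸ Submodule.mem_top
  · have h1 := Ideal.mem_map_of_mem (mapRingHom Θ) hD2
    rw [Ideal.map_span, Set.image_pair] at h1
    simp only [coe_mapRingHom, Polynomial.map_C] at h1
    rw [← derivative_map, ← atInfinity_map, hfam] at h1
    have h3 : IsUnit (C (Θ D) : B[X]) := hΘD.map C
    exact Ideal.eq_top_of_isUnit_mem _ h1 h3 ▸ Submodule.mem_top

end

end Pool.Agent.Y707.SF
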